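import Pool.Agent.H69.OC.Basic

/-!
# Labels, dual cycles
-/

set_option autoImplicit false
set_option linter.unusedSectionVars false
open scoped Classical
open Finset

namespace Pool.Agent.H69.OC

namespace DG

variable {V D : Type} [Fintype V] [Fintype D] {G : DG V D}

/-- at a vertex of degree at most three, balanced labels are distinct -/
theorem bal_inj {A : Finset D} {f : D → ℕ} {v : V} (hdeg : (sel A fun d => G.src d = v).card ≤ 3)
    (hb : G.BalAt A f v) (hne : ∀ d ∈ A, G.src d = v → f d ≠ f (G.inv d)) {d d' : D}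
    (hd : d ∈ A) (hd' : d' ∈ A) (h1 : G.src d = v) (h2 : G.src d' = v) (h : f d = f d') :
    d = d' := by
  by_contra hdd
  have h3 : 2 ≤ (sel A fun c => G.src c = v ∧ f c = f d).card := by
    have : ({d, d'} : Finset D) ⊆ sel A fun c => G.src c = v ∧ f c = f d := by
      intro c hc
      rw [mem_insert, mem_singleton] at hc
      rw [mem_sel]
      rcases hc with rfl | rfl
      · exact ⟨hd, h1, rfl⟩
      · exact ⟨hd', h2, h.symm⟩
    have h4 := card_le_card this
    rwa [card_pair hdd] at h4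
  have h5 := hb (f d)
  have h6 : (sel A fun c => G.src c = v ∧ f c = f d) ∪
      (sel A fun c => G.src c = v ∧ f (G.inv c) = f d) ⊆ sel A fun d => G.src d = v := by
    intro c hc
    rw [mem_union, mem_sel, mem_sel] at hc
    rw [mem_sel]
    tauto
  have h7 := card_le_card h6
  rw [card_union_of_disjoint] at h7
  · omega
  · rw [disjoint_left]
    intro c hc hc'
    rw [mem_sel] at hc hc'
    exact hne c hc.1 hc.2.1 (hc.2.2.trans hc'.2.2.symm)

/-- the same for in-labels -/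
theorem bal_inj' {A : Finset D} {f : D → ℕ} {v : V} (hdeg : (sel A fun d => G.src d = v).card ≤ 3)
    (hb : G.BalAt A f v) (hne : ∀ d ∈ A, G.src d = v → f d ≠ f (G.inv d)) {d d' : D}
    (hd : d ∈ A) (hd' : d' ∈ A) (h1 : G.src d = v) (h2 : G.src d' = v)
    (h : f (G.inv d) = f (G.inv d')) : d = d' := by
  by_contra hdd
  have h3 : 2 ≤ (sel A fun c => G.src c = v ∧ f (G.inv c) = f (G.inv d)).card := by
    have : ({d, d'} : Finset D) ⊆ sel A fun c => G.src c = v ∧ f (G.inv c) = f (G.inv d) := by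
      intro c hc
      rw [mem_insert, mem_singleton] at hc
      rw [mem_sel]
      rcases hc with rfl | rfl
      · exact ⟨hd, h1, rfl⟩
      · exact ⟨hd', h2, h.symm⟩
    have h4 := card_le_card this
    rwa [card_pair hdd] at h4
  have h5 := hb (f (G.inv d))
  have h6 : (sel A fun c => G.src c = v ∧ f c = f (G.inv d)) ∪
      (sel A fun c => G.src c = v ∧ f (G.inv c) = f (G.inv d)) ⊆ sel A fun d => G.src d = v := by
    intro c hc
    rw [mem_union, mem_sel, mem_sel] at hc
    rw [mem_sel]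
    tauto
  have h7 := card_le_card h6
  rw [card_union_of_disjoint] at h7
  · omega
  · rw [disjoint_left]
    intro c hc hc'
    rw [mem_sel] at hc hc'
    exact hne c hc.1 hc.2.1 (hc.2.2.trans hc'.2.2.symm)

/-- existence of the next dart on a facial walk / directed cycle -/
theorem bal_next {A : Finset D} (hA : G.Cl A) {f : D → ℕ} {d : D} (hb : G.BalAt A f (G.tgt d))
    (hd : d ∈ A) : ∃ d' ∈ A, G.src d' = G.tgt d ∧ f d' = f d := by
  have h1 := hb (f d)
  have h2 : G.inv d ∈ sel A fun c => G.src c = G.tgt d ∧ f (G.inv c) = f d := by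
    rw [mem_sel]
    exact ⟨hA _ hd, rfl, by rw [G.inv_inv]⟩
  have h3 : 0 < (sel A fun c => G.src c = G.tgt d ∧ f (G.inv c) = f d).card := card_pos.2 ⟨_, h2⟩
  rw [← h1] at h3
  obtain ⟨d', hd'⟩ := card_pos.1 h3
  rw [mem_sel] at hd'
  exact ⟨d', hd'.1, hd'.2.1, hd'.2.2⟩

/-- existence of the previous dart -/
theorem bal_prev {A : Finset D} (hA : G.Cl A) {f : D → ℕ} {d : D} (hb : G.BalAt A f (G.src d))
    (hd : d ∈ A) : ∃ d' ∈ A, G.tgt d' = G.src d ∧ f d' = f d := by
  have h1 := hb (f d)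
  have h2 : d ∈ sel A fun c => G.src c = G.src d ∧ f c = f d := by
    rw [mem_sel]
    exact ⟨hd, rfl, rfl⟩
  have h3 : 0 < (sel A fun c => G.src c = G.src d ∧ f c = f d).card := card_pos.2 ⟨_, h2⟩
  rw [h1] at h3
  obtain ⟨d', hd'⟩ := card_pos.1 h3
  rw [mem_sel] at hd'
  exact ⟨G.inv d', hA _ hd'.1, by rw [tgt_inv]; exact hd'.2.1, hd'.2.2⟩

/-- a cut is even on every label of a balanced labelling -/
theorem bal_even {A : Finset D} (hA : G.Cl A) {f : D → ℕ} {W : Finset V}
    (hb : ∀ v ∈ W, G.BalAt A f v) (k : ℕ) :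
    Even (sel A fun d => ¬ (G.src d ∈ W ↔ G.tgt d ∈ W) ∧ f d = k).card := by
  have h1 := stokes hA hb k
  have h2 : (sel A fun d => ¬ (G.src d ∈ W ↔ G.tgt d ∈ W) ∧ f d = k).card =
      (sel (G.cut A W) fun d => f d = k).card +
        (sel (G.cut A W) fun d => f (G.inv d) = k).card := by
    rw [card_sel_split A _ (fun d => G.src d ∈ W)]
    congr 1
    · congr 1
      apply sel_congr
      intro d
      rw [mem_cut]
      tauto
    · have h3 : (sel (G.cut A W) fun d => f (G.inv d) = k).card =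
          (sel A fun d => (fun c => (G.src c ∉ W ∧ G.tgt c ∈ W) ∧ f c = k) (G.inv d)).card := by
        congr 1
        apply sel_congr
        intro d
        rw [mem_cut]
        simp only [tgt_inv, src_inv]
        tauto
      rw [h3, card_sel_inv hA (fun c => (G.src c ∉ W ∧ G.tgt c ∈ W) ∧ f c = k)]
      congr 1
      apply sel_congr
      intro d
      tauto
  rw [h2, ← h1]
  exact ⟨_, rfl⟩

/-- relation between a set of edges and the cut -/
theorem card_cut_of_xor {A E : Finset D} (hA : G.Cl A) (hE : E ⊆ A) {W : Finset V}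
    (h : ∀ d ∈ A, (¬ (G.src d ∈ W ↔ G.tgt d ∈ W)) ↔ d ∈ E) : E.card = 2 * (G.cut A W).card := by
  have h1 : E = sel E (fun d => G.src d ∈ W) ∪ sel E (fun d => ¬ G.src d ∈ W) := by
    ext d
    rw [mem_union, mem_sel, mem_sel]
    tauto
  have h2 : sel E (fun d => G.src d ∈ W) = G.cut A W := by
    ext d
    rw [mem_sel, mem_cut]
    constructor
    · rintro ⟨h3, h4⟩
      have := (h d (hE h3)).2 h3
      exact ⟨hE h3, h4, by tauto⟩
    · rintro ⟨h3, h4, h5⟩
      exact ⟨(h d h3).1 (by tauto), h4⟩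
  have h3 : (sel E fun d => ¬ G.src d ∈ W).card = (G.cut A W).card := by
    rw [← cut_compl hA W]
    congr 1
    ext d
    rw [mem_sel, mem_cut, mem_compl, mem_compl, not_not]
    constructor
    · rintro ⟨h3, h4⟩
      have := (h d (hE h3)).2 h3
      exact ⟨hE h3, h4, by tauto⟩
    · rintro ⟨h3, h4, h5⟩
      exact ⟨(h d h3).1 (by tauto), h4⟩
  rw [h1, card_union_of_disjoint, h2, h3]
  · omega
  · rw [disjoint_left]
    intro d hd hd'
    rw [mem_sel] at hd hd'
    exact hd'.2 hd.2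

theorem sum_ind_eq {A : Finset D} {E : Finset D} (q : D → Prop) :
    (∑ d ∈ sel A q, (if d ∈ E then (1 : ZMod 2) else 0)) = ((sel A fun d => d ∈ E ∧ q d).card : ZMod 2) := by
  rw [Finset.sum_ite, Finset.sum_const_zero, add_zero, Finset.sum_const, nsmul_eq_mul, mul_one]
  congr 2
  ext d
  simp only [mem_filter, mem_sel]
  tauto

/-- set version of `Eul`: an even set of edges is a cut -/
theorem Eul.set {A : Finset D} {f : D → ℕ} (h : G.Eul A f) {E : Finset D} (hE : G.Cl E)
    (hev : ∀ k, Even (sel A fun d => d ∈ E ∧ f d = k).card) :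
    ∃ W : Finset V, ∀ d ∈ A, (¬ (G.src d ∈ W ↔ G.tgt d ∈ W)) ↔ d ∈ E := by
  have ha : ∀ d, (fun d => if d ∈ E then (1 : ZMod 2) else 0) (G.inv d) =
      (fun d => if d ∈ E then (1 : ZMod 2) else 0) d := by
    intro d
    simp only [hE.mem_iff]
  have hb : ∀ k, ∑ d ∈ sel A (fun d => f d = k), (fun d => if d ∈ E then (1 : ZMod 2) else 0) d
      = 0 := by
    intro k
    rw [sum_ind_eq, ZMod.natCast_eq_zero_iff_even]
    exact hev k
  obtain ⟨W, hW⟩ := h _ ha hb
  refine ⟨W, fun d hd => ?_⟩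
  have h1 := hW d hd
  by_cases hd2 : d ∈ E
  · rw [if_pos hd2] at h1
    exact ⟨fun _ => hd2, fun _ => ind_add_ind_one.1 h1.symm⟩
  · rw [if_neg hd2] at h1
    exact ⟨fun h2 => absurd (ind_add_ind.1 h1.symm) h2, fun h2 => absurd h2 hd2⟩

/-- set version of `Pole.eul` -/
theorem Pole.set {X : Finset V} {g : D → ℕ} (h : G.Pole X g) {E : Finset D} (hE : G.Cl E)
    (hT : ∀ d ∈ E, G.Tc X d) (hev : ∀ k, Even (sel E fun d => g d = k).card) :
    ∃ W : Finset V, W ⊆ X ∧ ∀ d, (¬ (G.src d ∈ W ↔ G.tgt d ∈ W)) ↔ d ∈ E := by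
  have ha : ∀ d, (fun d => if d ∈ E then (1 : ZMod 2) else 0) (G.inv d) =
      (fun d => if d ∈ E then (1 : ZMod 2) else 0) d := by
    intro d
    simp only [hE.mem_iff]
  have hc : ∀ d, ¬ G.Tc X d → (fun d => if d ∈ E then (1 : ZMod 2) else 0) d = 0 := by
    intro d hd
    exact if_neg fun h2 => hd (hT d h2)
  have hb : ∀ k, ∑ d ∈ sel univ (fun d => G.Tc X d ∧ g d = k),
      (fun d => if d ∈ E then (1 : ZMod 2) else 0) d = 0 := by
    intro k
    rw [sum_ind_eq, ZMod.natCast_eq_zero_iff_even]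
    have : (sel univ fun d => d ∈ E ∧ (G.Tc X d ∧ g d = k)) = sel E fun d => g d = k := by
      apply sel_congr
      intro d
      have := hT d
      simp only [mem_univ, true_and]
      tauto
    rw [this]
    exact hev k
  obtain ⟨W, hWX, hW⟩ := h.eul _ ha hc hb
  refine ⟨W, hWX, fun d => ?_⟩
  have h1 := hW d
  by_cases hd2 : d ∈ E
  · rw [if_pos hd2] at h1
    exact ⟨fun _ => hd2, fun _ => ind_add_ind_one.1 h1.symm⟩
  · rw [if_neg hd2] at h1
    exact ⟨fun h2 => absurd (ind_add_ind.1 h1.symm) h2, fun h2 => absurd h2 hd2⟩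

/-- the edges of a list of darts -/
noncomputable def ed (G : DG V D) (I : Finset ℕ) (k : ℕ → D) : Finset D :=
  I.image k ∪ I.image fun i => G.inv (k i)

theorem mem_ed {I : Finset ℕ} {k : ℕ → D} {d : D} :
    d ∈ G.ed I k ↔ ∃ i ∈ I, d = k i ∨ d = G.inv (k i) := by
  simp only [ed, mem_union, mem_image]
  constructor
  · rintro (⟨i, hi, h⟩ | ⟨i, hi, h⟩)
    · exact ⟨i, hi, Or.inl h.symm⟩
    · exact ⟨i, hi, Or.inr h.symm⟩
  · rintro ⟨i, hi, h | h⟩
    · exact Or.inl ⟨i, hi, h.symm⟩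
    · exact Or.inr ⟨i, hi, h.symm⟩

theorem cl_ed (I : Finset ℕ) (k : ℕ → D) : G.Cl (G.ed I k) := by
  intro d hd
  rw [mem_ed] at hd ⊢
  obtain ⟨i, hi, h | h⟩ := hd
  · exact ⟨i, hi, Or.inr (by rw [h])⟩
  · exact ⟨i, hi, Or.inl (by rw [h, G.inv_inv])⟩

/-- distinct edges -/
def Dist (G : DG V D) (I : Finset ℕ) (k : ℕ → D) : Prop :=
  ∀ i ∈ I, ∀ j ∈ I, (k i = k j ∨ k i = G.inv (k j)) → i = j

theorem card_sel_ed {I : Finset ℕ} {k : ℕ → D} (hk : G.Dist I k) (q : D → Prop) :
    (sel (G.ed I k) q).card =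
      (sel I fun i => q (k i)).card + (sel I fun i => q (G.inv (k i))).card := by
  have h1 : sel (G.ed I k) q = (sel I fun i => q (k i)).image k ∪
      (sel I fun i => q (G.inv (k i))).image fun i => G.inv (k i) := by
    ext d
    simp only [mem_sel, mem_ed, mem_union, mem_image]
    constructor
    · rintro ⟨⟨i, hi, rfl | rfl⟩, hq⟩
      · exact Or.inl ⟨i, ⟨hi, hq⟩, rfl⟩
      · exact Or.inr ⟨i, ⟨hi, hq⟩, rfl⟩
    · rintro (⟨i, ⟨hi, hq⟩, rfl⟩ | ⟨i, ⟨hi, hq⟩, rfl⟩)
      · exact ⟨⟨i, hi, Or.inl rfl⟩, hq⟩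
      · exact ⟨⟨i, hi, Or.inr rfl⟩, hq⟩
  rw [h1, card_union_of_disjoint, card_image_of_injOn, card_image_of_injOn]
  · intro i hi j hj hij
    rw [mem_coe, mem_sel] at hi hj
    exact hk i hi.1 j hj.1 (Or.inl (inv_inj hij))
  · intro i hi j hj hij
    rw [mem_coe, mem_sel] at hi hj
    exact hk i hi.1 j hj.1 (Or.inl hij)
  · rw [disjoint_left]
    intro d hd hd'
    simp only [mem_image, mem_sel] at hd hd'
    obtain ⟨i, ⟨hi, _⟩, rfl⟩ := hd
    obtain ⟨j, ⟨hj, _⟩, h⟩ := hd'
    have := hk i hi j hj (Or.inr h.symm)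
    subst this
    exact G.inv_ne _ h

theorem card_ed {I : Finset ℕ} {k : ℕ → D} (hk : G.Dist I k) : (G.ed I k).card = 2 * I.card := by
  have h := card_sel_ed hk (fun _ => True)
  have e : ∀ {T : Type} (A : Finset T), (sel A fun _ => True) = A := by
    intro T A
    ext d
    simp [mem_sel]
  simp only [e] at h
  omega

/-- dual cycles, given by a family of distinct edges whose left and right faces agree as
multisets, are cuts -/
theorem Eul.family {A : Finset D} (hA : G.Cl A) {f : D → ℕ} (h : G.Eul A f) {I : Finset ℕ}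
    {k : ℕ → D} (hk : G.Dist I k) (hkA : ∀ i ∈ I, k i ∈ A)
    (hf : ∀ c, Even ((sel I fun i => f (k i) = c).card + (sel I fun i => f (G.inv (k i)) = c).card)) :
    ∃ W : Finset V, (∀ d ∈ A, (¬ (G.src d ∈ W ↔ G.tgt d ∈ W)) ↔ ∃ i ∈ I, d = k i ∨ d = G.inv (k i))
      ∧ (G.cut A W).card = I.card := by
  have hsub : G.ed I k ⊆ A := by
    intro d hd
    rw [mem_ed] at hd
    obtain ⟨i, hi, rfl | rfl⟩ := hd
    · exact hkA i hi
    · exact hA _ (hkA i hi)
  have hev : ∀ c, Even (sel A fun d => d ∈ G.ed I k ∧ f d = c).card := by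
    intro c
    have : (sel A fun d => d ∈ G.ed I k ∧ f d = c) = sel (G.ed I k) fun d => f d = c := by
      apply sel_congr
      intro d
      have := @hsub d
      tauto
    rw [this, card_sel_ed hk]
    exact hf c
  obtain ⟨W, hW⟩ := h.set (cl_ed I k) hev
  refine ⟨W, fun d hd => (hW d hd).trans mem_ed, ?_⟩
  have h1 := card_cut_of_xor hA hsub hW
  rw [card_ed hk] at h1
  omega

/-- the same for poles -/
theorem Pole.family {X : Finset V} {g : D → ℕ} (h : G.Pole X g) {I : Finset ℕ}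
    {k : ℕ → D} (hk : G.Dist I k) (hkX : ∀ i ∈ I, G.Tc X (k i))
    (hf : ∀ c, Even ((sel I fun i => g (k i) = c).card + (sel I fun i => g (G.inv (k i)) = c).card)) :
    ∃ W : Finset V, W ⊆ X ∧
      (∀ d, (¬ (G.src d ∈ W ↔ G.tgt d ∈ W)) ↔ ∃ i ∈ I, d = k i ∨ d = G.inv (k i))
      ∧ (G.cut univ W).card = I.card := by
  have hT : ∀ d ∈ G.ed I k, G.Tc X d := by
    intro d hd
    rw [mem_ed] at hd
    obtain ⟨i, hi, rfl | rfl⟩ := hd
    · exact hkX i hi
    · have := hkX i hi
      unfold Tc at this ⊢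
      rw [tgt_inv, src_inv]
      exact this.symm
  have hev : ∀ c, Even (sel (G.ed I k) fun d => g d = c).card := by
    intro c
    rw [card_sel_ed hk]
    exact hf c
  obtain ⟨W, hWX, hW⟩ := h.set (cl_ed I k) hT hev
  refine ⟨W, hWX, fun d => (hW d).trans mem_ed, ?_⟩
  have h1 := card_cut_of_xor (cl_univ (G := G)) (subset_univ (G.ed I k)) fun d _ => hW d
  rw [card_ed hk] at h1
  omega

theorem tc_inv {X : Finset V} {d : D} : G.Tc X (G.inv d) ↔ G.Tc X d := by
  unfold Tc
  rw [tgt_inv, src_inv]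
  exact or_comm

end DG

end Pool.Agent.H69.OC
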