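import Pool.Agent.H69.OC.Targets
import Pool.Agent.H7.TF.Basic

/-!
# Assembly: toroidal graphs
-/

set_option autoImplicit false
set_option linter.unusedSectionVars false
open scoped Classical
open Finset

namespace Pool.Agent.H69.OC

open DG Equiv
open Pool.Agent.H7.TF

/-- maps of genus at most one -/
theorem cov_tor (hCUB : T_CUB) (hTORC : T_TORC) (hTRU : T_TRU) (V D : Type) [Fintype V]
    [Fintype D] (G : DG V D) (s : Perm D) (hBL : G.BL univ) (hR : G.Rot univ s) (hT : Tor G s) :
    ∃ lam, G.Cov univ lam := by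
  refine hTRU V D G s hBL hR hT ?_
  intro V' D' _ _ G' s' hC hB hR' hT'
  rcases hTORC V' D' G' s' hB hR' hT' with h | h
  · exact h
  · exact hCUB V' D' G' hC hB h

/-- the permutation of the darts whose cycles are the faces of the rotation `σ` -/
def faceP {V : Type} (G : SimpleGraph V) (σ : Perm G.Dart) : Perm G.Dart where
  toFun := fun d => σ d.symm
  invFun := fun d => (σ⁻¹ d).symm
  left_inv := fun d => by simp
  right_inv := fun d => by simp

/-- number of vertices of a component -/
noncomputable def numV {V : Type} (G : SimpleGraph V) (K : G.ConnectedComponent) : ℕ :=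
  Nat.card {v : V // G.connectedComponentMk v = K}

/-- number of edges of a component -/
noncomputable def numE {V : Type} (G : SimpleGraph V) (K : G.ConnectedComponent) : ℕ :=
  Nat.card {e : Sym2 V // e ∈ G.edgeSet ∧ ∀ v ∈ e, G.connectedComponentMk v = K}

/-- number of faces of a component -/
noncomputable def numF {V : Type} (G : SimpleGraph V) (σ : Perm G.Dart)
    (K : G.ConnectedComponent) : ℕ :=
  Nat.card {c : Quotient (Perm.SameCycle.setoid (faceP G σ)) //
    ∃ d : G.Dart, G.connectedComponentMk d.fst = K ∧ Quotient.mk _ d = c}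

section

variable {V : Type} [Fintype V] (G : SimpleGraph V) (K : G.ConnectedComponent)

abbrev VK : Type := {v : V // G.connectedComponentMk v = K}
abbrev DK : Type := {d : G.Dart // G.connectedComponentMk d.fst = K}

theorem mk_symm {G : SimpleGraph V} {K : G.ConnectedComponent} {d : G.Dart}
    (h : G.connectedComponentMk d.fst = K) :
    G.connectedComponentMk d.symm.fst = K := by
  rw [← h]
  exact (SimpleGraph.ConnectedComponent.sound d.adj.reachable).symm

theorem mk_symm_iff {G : SimpleGraph V} {K : G.ConnectedComponent} {d : G.Dart} :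
    G.connectedComponentMk d.symm.fst = K ↔ G.connectedComponentMk d.fst = K := by
  constructor
  · intro h
    have := mk_symm h
    rwa [SimpleGraph.Dart.symm_symm] at this
  · exact mk_symm

/-- the dart graph of a component -/
def dgK : DG (VK G K) (DK G K) where
  src := fun d => ⟨d.1.fst, d.2⟩
  inv := fun d => ⟨d.1.symm, mk_symm d.2⟩
  inv_inv := fun d => Subtype.ext d.1.symm_symm
  inv_ne := fun d h => d.1.symm_ne (congrArg Subtype.val h)

noncomputable instance instVK : Fintype (VK G K) := Fintype.ofFinite _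
noncomputable instance instDK : Fintype (DK G K) := Fintype.ofFinite _

variable {G K}

theorem bl_dgK (h : (dgS G).BL univ) : (dgK G K).BL univ := by
  intro W
  have h1 := h (W.image Subtype.val)
  have h2 : ((dgK G K).cut univ W).card = ((dgS G).cut univ (W.image Subtype.val)).card := by
    refine card_bij (fun d _ => d.1) ?_ ?_ ?_
    · intro d hd
      rw [mem_cut] at hd ⊢
      refine ⟨mem_univ _, mem_image.2 ⟨_, hd.2.1, rfl⟩, ?_⟩
      intro h3
      obtain ⟨v, hv, hv2⟩ := mem_image.1 h3
      apply hd.2.2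
      have : (dgK G K).tgt d = v := Subtype.ext hv2.symm
      rw [this]
      exact hv
    · intro d _ d' _ h3
      exact Subtype.ext h3
    · intro d hd
      rw [mem_cut] at hd
      obtain ⟨v, hv, hv2⟩ := mem_image.1 hd.2.1
      have hK : G.connectedComponentMk d.fst = K := by
        have : d.fst = v.1 := hv2.symm
        rw [this]
        exact v.2
      refine ⟨⟨d, hK⟩, ?_, rfl⟩
      rw [mem_cut]
      refine ⟨mem_univ _, ?_, ?_⟩
      · have : (dgK G K).src ⟨d, hK⟩ = v := Subtype.ext hv2.symm
        rw [this]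
        exact hv
      · intro h3
        exact hd.2.2 (mem_image.2 ⟨_, h3, rfl⟩)
  rw [h2]
  exact h1

variable {σ : Perm G.Dart}

theorem mk_rot (h1 : ∀ d, (σ d).fst = d.fst) (d : G.Dart) :
    G.connectedComponentMk (σ d).fst = K ↔ G.connectedComponentMk d.fst = K := by
  rw [h1]

/-- the rotation of a component -/
def sK (K : G.ConnectedComponent) (h1 : ∀ d, (σ d).fst = d.fst) : Perm (DK G K) :=
  σ.subtypePerm (fun d => mk_rot h1 d)

theorem rot_dgK (h1 : ∀ d, (σ d).fst = d.fst)
    (h2 : ∀ d d' : G.Dart, d.fst = d'.fst → σ.SameCycle d d') :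
    (dgK G K).Rot univ (sK K h1) := by
  refine ⟨fun d _ => ⟨mem_univ _, ?_⟩, fun d _ d' _ h => ?_⟩
  · exact Subtype.ext (h1 d.1)
  · unfold sK
    rw [Perm.sameCycle_subtypePerm]
    exact h2 _ _ (congrArg Subtype.val h)

theorem conn_dgK (h1 : ∀ d, (σ d).fst = d.fst)
    (h2 : ∀ d d' : G.Dart, d.fst = d'.fst → σ.SameCycle d d') (i : Perm (DK G K))
    (hi : ∀ d, i d = (dgK G K).inv d) {u v : V} (w : G.Walk u v) :
    ∀ d d' : DK G K, d.1.fst = u → d'.1.fst = v → conn (sK K h1) i d d' := by
  induction w with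
  | nil =>
    intro d d' hd hd'
    apply conn_of_sameCycle_left
    unfold sK
    rw [Perm.sameCycle_subtypePerm]
    exact h2 _ _ (hd.trans hd'.symm)
  | @cons u w v h p ih =>
    intro d d' hd hd'
    have hK : G.connectedComponentMk (⟨(u, w), h⟩ : G.Dart).fst = K := by
      change G.connectedComponentMk u = K
      rw [← hd]
      exact d.2
    have e1 : conn (sK K h1) i d ⟨⟨(u, w), h⟩, hK⟩ := by
      apply conn_of_sameCycle_left
      unfold sK
      rw [Perm.sameCycle_subtypePerm]
      exact h2 _ _ hd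
    have e2 : conn (sK K h1) i ⟨⟨(u, w), h⟩, hK⟩ (i ⟨⟨(u, w), h⟩, hK⟩) := conn_right _ _ _
    have e3 : conn (sK K h1) i (i ⟨⟨(u, w), h⟩, hK⟩) d' := by
      apply ih
      · rw [hi]
        rfl
      · exact hd'
    exact (conn (sK K h1) i).trans e1 ((conn (sK K h1) i).trans e2 e3)

theorem comps_dgK (h1 : ∀ d, (σ d).fst = d.fst)
    (h2 : ∀ d d' : G.Dart, d.fst = d'.fst → σ.SameCycle d d') (i : Perm (DK G K))
    (hi : ∀ d, i d = (dgK G K).inv d) : comps (sK K h1) i ≤ 1 := by
  unfold comps
  have : Subsingleton (Quotient (conn (sK K h1) i)) := by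
    constructor
    intro a b
    induction a using Quotient.inductionOn with
    | _ a =>
      induction b using Quotient.inductionOn with
      | _ b =>
        apply Quotient.sound
        have hr : G.Reachable a.1.fst b.1.fst :=
          SimpleGraph.ConnectedComponent.exact (a.2.trans b.2.symm)
        obtain ⟨w⟩ := hr
        exact conn_dgK h1 h2 i hi w a b rfl rfl
  exact Finite.card_le_one_iff_subsingleton.2 this

/-- in a component with an edge every vertex has a dart -/
theorem exists_dart (hne : Nonempty (DK G K)) (v : V) (hv : G.connectedComponentMk v = K) :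
    ∃ d : DK G K, d.1.fst = v := by
  obtain ⟨d0⟩ := hne
  have hr : G.Reachable v d0.1.fst := SimpleGraph.ConnectedComponent.exact (hv.trans d0.2.symm)
  obtain ⟨w⟩ := hr
  cases w with
  | nil => exact ⟨d0, rfl⟩
  | @cons _ u _ h p => exact ⟨⟨⟨(v, u), h⟩, hv⟩, rfl⟩

theorem numV_le (hne : Nonempty (DK G K)) (h1 : ∀ d, (σ d).fst = d.fst) :
    numV G K ≤ nc (sK K h1) := by
  unfold numV nc
  have hsame : ∀ a b : DK G K, (Perm.SameCycle.setoid (sK K h1)) a b → a.1.fst = b.1.fst := by
    intro a b hab
    have hS : ∀ z ∈ {z : DK G K | z.1.fst = a.1.fst}, (sK K h1) z ∈ {z : DK G K | z.1.fst = a.1.fst} := by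
      intro z hz
      change (σ z.1).fst = a.1.fst
      rw [h1]
      exact hz
    have := mem_of_sameCycle hS (x := a) (y := b) rfl hab
    exact this.symm
  let F : Quotient (Perm.SameCycle.setoid (sK K h1)) → {v : V // G.connectedComponentMk v = K} :=
    Quotient.lift (fun d : DK G K => ⟨d.1.fst, d.2⟩) (fun a b hab => Subtype.ext (hsame a b hab))
  refine Nat.card_le_card_of_surjective F ?_
  intro v
  obtain ⟨d, hd⟩ := exists_dart hne v.1 v.2
  exact ⟨Quotient.mk _ d, Subtype.ext hd⟩

theorem mk_edge {d : G.Dart} (h : G.connectedComponentMk d.fst = K) :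
    d.edge ∈ G.edgeSet ∧ ∀ v ∈ d.edge, G.connectedComponentMk v = K := by
  refine ⟨d.edge_mem, ?_⟩
  intro v hv
  have : v = d.fst ∨ v = d.snd := Sym2.mem_iff.1 hv
  rcases this with rfl | rfl
  · exact h
  · exact mk_symm h

theorem numE_le (i : Perm (DK G K)) (hi : ∀ d, i d = (dgK G K).inv d) : numE G K ≤ nc i := by
  unfold numE nc
  have hsame : ∀ a b : DK G K, (Perm.SameCycle.setoid i) a b → a.1.edge = b.1.edge := by
    intro a b hab
    have hS : ∀ z ∈ {z : DK G K | z.1.edge = a.1.edge}, i z ∈ {z : DK G K | z.1.edge = a.1.edge} := by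
      intro z hz
      change (i z).1.edge = a.1.edge
      rw [hi]
      change z.1.symm.edge = a.1.edge
      rw [SimpleGraph.Dart.edge_symm]
      exact hz
    have := mem_of_sameCycle hS (x := a) (y := b) rfl hab
    exact this.symm
  let F : Quotient (Perm.SameCycle.setoid i) →
      {e : Sym2 V // e ∈ G.edgeSet ∧ ∀ v ∈ e, G.connectedComponentMk v = K} :=
    Quotient.lift (fun d : DK G K => ⟨d.1.edge, mk_edge d.2⟩)
      (fun a b hab => Subtype.ext (hsame a b hab))
  refine Nat.card_le_card_of_surjective F ?_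
  rintro ⟨e, he1, he2⟩
  induction e using Sym2.inductionOn with
  | _ u v =>
    exact ⟨Quotient.mk _ ⟨⟨(u, v), he1⟩, he2 u (Sym2.mem_mk_left u v)⟩, Subtype.ext rfl⟩

theorem card_DK_le : Nat.card (DK G K) ≤ 2 * numE G K := by
  unfold numE
  rw [Nat.card_eq_fintype_card]
  let F : DK G K → {e : Sym2 V // e ∈ G.edgeSet ∧ ∀ v ∈ e, G.connectedComponentMk v = K} :=
    fun d => ⟨d.1.edge, mk_edge d.2⟩
  have : Fintype {e : Sym2 V // e ∈ G.edgeSet ∧ ∀ v ∈ e, G.connectedComponentMk v = K} :=
    Fintype.ofFinite _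
  rw [Nat.card_eq_fintype_card, ← card_univ, ← card_univ]
  have h1 := card_le_mul_card_image_of_maps_to (s := (univ : Finset (DK G K)))
    (t := (univ : Finset {e : Sym2 V // e ∈ G.edgeSet ∧ ∀ v ∈ e, G.connectedComponentMk v = K}))
    (f := F) (fun _ _ => mem_univ _) 2 ?_
  · exact h1
  · intro e _
    by_cases hne : ∃ d, F d = e
    · obtain ⟨d, hd⟩ := hne
      have hsub : (univ.filter fun x => F x = e) ⊆ {d, (dgK G K).inv d} := by
        intro x hx
        have hx2 : F x = F d := ((mem_filter.1 hx).2).trans hd.symm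
        have hx3 : x.1.edge = d.1.edge := congrArg Subtype.val hx2
        rw [SimpleGraph.dart_edge_eq_iff] at hx3
        rw [mem_insert, mem_singleton]
        rcases hx3 with h | h
        · exact Or.inl (Subtype.ext h)
        · exact Or.inr (Subtype.ext h)
      exact (card_le_card hsub).trans card_le_two
    · have : (univ.filter fun x => F x = e) = ∅ := by
        ext x
        simp only [mem_filter, mem_univ, true_and, notMem_empty, iff_false]
        exact fun h => hne ⟨x, h⟩
      rw [this]
      simp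

theorem numF_le (h1 : ∀ d, (σ d).fst = d.fst) (i : Perm (DK G K))
    (hi : ∀ d, i d = (dgK G K).inv d) : numF G σ K ≤ nc (sK K h1 * i) := by
  unfold numF nc
  have hval : ∀ a : DK G K, ((sK K h1 * i) a).1 = faceP G σ a.1 := by
    intro a
    change (σ (i a).1) = σ a.1.symm
    rw [hi]
    rfl
  have hsame : ∀ a b : DK G K, (Perm.SameCycle.setoid (sK K h1 * i)) a b →
      (Perm.SameCycle.setoid (faceP G σ)) a.1 b.1 := by
    intro a b hab
    have hS : ∀ z ∈ {z : DK G K | (faceP G σ).SameCycle a.1 z.1},
        (sK K h1 * i) z ∈ {z : DK G K | (faceP G σ).SameCycle a.1 z.1} := by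
      intro z hz
      change (faceP G σ).SameCycle a.1 ((sK K h1 * i) z).1
      rw [hval]
      exact Perm.SameCycle.trans hz (sameCycle_self_apply _ _)
    exact mem_of_sameCycle hS (x := a) (y := b) (Perm.SameCycle.refl _ _) hab
  let F : Quotient (Perm.SameCycle.setoid (sK K h1 * i)) →
      {c : Quotient (Perm.SameCycle.setoid (faceP G σ)) //
        ∃ d : G.Dart, G.connectedComponentMk d.fst = K ∧ Quotient.mk _ d = c} :=
    Quotient.lift (fun d : DK G K => ⟨Quotient.mk _ d.1, d.1, d.2, rfl⟩)
      (fun a b hab => Subtype.ext (Quotient.sound (hsame a b hab)))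
  refine Nat.card_le_card_of_surjective F ?_
  rintro ⟨c, d, hd, rfl⟩
  exact ⟨Quotient.mk _ ⟨d, hd⟩, Subtype.ext rfl⟩

theorem tor_dgK (hne : Nonempty (DK G K)) (h1 : ∀ d, (σ d).fst = d.fst)
    (h2 : ∀ d d' : G.Dart, d.fst = d'.fst → σ.SameCycle d d')
    (hg : numE G K ≤ numV G K + numF G σ K) : Tor (dgK G K) (sK K h1) := by
  intro i hi
  have a1 := comps_dgK h1 h2 i hi
  have a2 := numV_le hne h1
  have a3 := numE_le i hi
  have a4 := card_DK_le (G := G) (K := K)
  have a5 := numF_le h1 i hi
  omega

end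

/-- gluing the components -/
theorem cov_of_comps {V : Type} [Fintype V] (G : SimpleGraph V)
    (h : ∀ K : G.ConnectedComponent, ∃ lam, (dgK G K).Cov univ lam) :
    ∃ lam, (dgS G).Cov univ lam := by
  choose L hL using h
  let lam : G.Dart → ℕ := fun d => L (G.connectedComponentMk d.fst) ⟨d, rfl⟩
  have key : ∀ (K : G.ConnectedComponent) (d : G.Dart) (hd : G.connectedComponentMk d.fst = K),
      lam d = L K ⟨d, hd⟩ := by
    intro K d hd
    subst hd
    rfl
  refine ⟨lam, ?_, ?_⟩
  · intro d _
    have e1 := key _ d rfl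
    have e2 := key (G.connectedComponentMk d.fst) d.symm (mk_symm rfl)
    have e3 := (hL (G.connectedComponentMk d.fst)).1 ⟨d, rfl⟩ (mem_univ _)
    intro h
    apply e3
    rw [← e1]
    exact h.trans e2
  · intro v k
    have hb := (hL (G.connectedComponentMk v)).2 ⟨v, rfl⟩ k
    have hmk : ∀ d : G.Dart, d.fst = v → G.connectedComponentMk d.fst = G.connectedComponentMk v :=
      fun d hd => by rw [hd]
    have t1 : (sel univ fun d => (dgS G).src d = v ∧ lam d = k).card =
        (sel univ fun d => (dgK G (G.connectedComponentMk v)).src d = ⟨v, rfl⟩ ∧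
          L (G.connectedComponentMk v) d = k).card := by
      symm
      refine card_bij (fun d _ => d.1) ?_ ?_ ?_
      · intro d hd
        rw [mem_sel] at hd ⊢
        refine ⟨mem_univ _, congrArg Subtype.val hd.2.1, ?_⟩
        rw [key _ d.1 d.2]
        exact hd.2.2
      · intro d _ d' _ hdd
        exact Subtype.ext hdd
      · intro d hd
        rw [mem_sel] at hd
        refine ⟨⟨d, hmk d hd.2.1⟩, ?_, rfl⟩
        rw [mem_sel]
        refine ⟨mem_univ _, Subtype.ext hd.2.1, ?_⟩
        rw [← key _ d (hmk d hd.2.1)]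
        exact hd.2.2
    have t2 : (sel univ fun d => (dgS G).src d = v ∧ lam ((dgS G).inv d) = k).card =
        (sel univ fun d => (dgK G (G.connectedComponentMk v)).src d = ⟨v, rfl⟩ ∧
          L (G.connectedComponentMk v) ((dgK G (G.connectedComponentMk v)).inv d) = k).card := by
      symm
      refine card_bij (fun d _ => d.1) ?_ ?_ ?_
      · intro d hd
        rw [mem_sel] at hd ⊢
        refine ⟨mem_univ _, congrArg Subtype.val hd.2.1, ?_⟩
        have := key _ d.1.symm (mk_symm d.2)
        exact this.trans hd.2.2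
      · intro d _ d' _ hdd
        exact Subtype.ext hdd
      · intro d hd
        rw [mem_sel] at hd
        refine ⟨⟨d, hmk d hd.2.1⟩, ?_, rfl⟩
        rw [mem_sel]
        refine ⟨mem_univ _, Subtype.ext hd.2.1, ?_⟩
        have := key _ d.symm (mk_symm (hmk d hd.2.1))
        exact this.symm.trans hd.2.2
    rw [t1, t2]
    exact hb

/-- the main theorem for simple graphs -/
theorem main_simple (hCUB : T_CUB) (hTORC : T_TORC) (hTRU : T_TRU) (hBLS : T_BLS)
    (hFIN : T_FIN) (V : Type) [Fintype V] (G : SimpleGraph V)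
    (hb : ∀ u v : V, G.Adj u v → (G.deleteEdges {s(u, v)}).Reachable u v) (σ : Perm G.Dart)
    (h1 : ∀ d, (σ d).fst = d.fst) (h2 : ∀ d d' : G.Dart, d.fst = d'.fst → σ.SameCycle d d')
    (hg : ∀ K : G.ConnectedComponent, numE G K ≤ numV G K + numF G σ K) :
    ∃ C : List (Σ v : V, G.Walk v v), (∀ c ∈ C, c.2.IsCycle) ∧
      ∀ u v : V, G.Adj u v →
        (C.map (fun c => (c.2.darts.filter (fun d => decide (d.toProd = (u, v)))).length)).sum = 1 := by
  refine hFIN V G (cov_of_comps G ?_)
  intro K
  by_cases hne : Nonempty (DK G K)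
  · exact cov_tor hCUB hTORC hTRU _ _ (dgK G K) (sK K h1) (bl_dgK (hBLS V G hb)) (rot_dgK h1 h2)
      (tor_dgK hne h1 h2 (hg K))
  · rw [not_nonempty_iff] at hne
    refine ⟨fun _ => 0, fun d => hne.elim d, fun v k => ?_⟩
    congr 1

end Pool.Agent.H69.OC
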