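import Pool.Agent.H69.OC.Cub
import Pool.Agent.H69.OC.Final
import Pool.Agent.H11.OC.CORE
import Pool.Agent.H11.OC.R2
import Pool.Agent.H11.OC.R3
import Pool.Agent.H11.OC.RED
import Pool.Agent.H15.OC.Ring1
import Pool.Agent.H15.OC.Sup
import Pool.Agent.H15.OC.Torc
import Pool.Agent.H20.OC.EX1
import Pool.Agent.H20.OC.R4
import Pool.Agent.H20.OC.TRU
import Pool.Agent.H24.OC.DEL
import Pool.Agent.H24.OC.LAB
import Pool.Agent.H24.OC.NORM
import Pool.Agent.H24.OC.SIX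
import Pool.Agent.H33.OC.SUBP
import Pool.Agent.H33.OC.THETA
import Pool.Agent.H34.OC.EUL
import Pool.Agent.H34.OC.PATH
import Pool.Agent.H34.OC.WALK
import Pool.Agent.H48.OC.ECL2
import Pool.Agent.H48.OC.EX2
import Pool.Agent.H62.OC.Dual
import Pool.Agent.H62.OC.Odd
import Pool.Agent.H62.OC.Conf0
import Pool.Agent.H67.OC.EXT
import Pool.Agent.H67.OC.RING2
import Pool.Agent.H73.OC.Fin
import Pool.Agent.H84.OC.Push
import Pool.Agent.H96.OC.Ports

/-!
# All modules together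
-/

set_option autoImplicit false
open scoped Classical

namespace Pool.Agent.H69.OC

theorem a_walk : T_WALK := Pool.Agent.H34.OC.walk
theorem a_d1 : T_D1 := Pool.Agent.H62.OC.t_D1
theorem a_d2 : T_D2 := Pool.Agent.H62.OC.t_D2 a_d1
theorem a_d3 : T_D3 := Pool.Agent.H62.OC.t_D3 a_d1
theorem a_d4 : T_D4 := Pool.Agent.H62.OC.t_D4
theorem a_mono : T_MONO := Pool.Agent.H24.OC.t_mono
theorem a_conf0 : T_CONF0 := Pool.Agent.H62.OC.t_CONF0 a_d1 a_d2 a_d3 a_walk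
theorem a_push : T_PUSH := t_push a_d1 a_d2 a_d3 a_d4 a_walk
theorem a_odd : T_ODD := Pool.Agent.H62.OC.t_ODD a_conf0 a_push a_d1 a_d2
theorem a_core : T_CORE := Pool.Agent.H11.OC.t_core
theorem a_red : T_RED := Pool.Agent.H11.OC.t_red a_core
theorem a_ports : T_PORTS := Pool.Agent.H96.OC.t_ports a_d1 a_d2

/-- the theorem for cubic multigraphs which are planar up to one edge -/
theorem a_cub : T_CUB :=
  t_cub Pool.Agent.H11.OC.t_r2 Pool.Agent.H11.OC.t_r3 Pool.Agent.H33.OC.THETA.theta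
    (Pool.Agent.H20.OC.R4.t_r4 Pool.Agent.H34.OC.split) a_mono Pool.Agent.H24.OC.t_lab
    (t_sup a_mono) Pool.Agent.H24.OC.t_norm (Pool.Agent.H48.OC.ECL.t_ecl1 a_walk)
    (Pool.Agent.H48.OC.ECL.t_ecl2 a_walk) a_ports Pool.Agent.H24.OC.t_six
    Pool.Agent.H33.OC.SUBP.subp a_d1 a_odd a_red Pool.Agent.H67.OC.EXT.t_ext
    Pool.Agent.H20.OC.t_ex1 Pool.Agent.H48.OC.EX2.t_ex2 Pool.Agent.H34.OC.path t_ring1
    Pool.Agent.H67.OC.RING2.t_ring2

theorem main_all (V : Type) [Fintype V] (G : SimpleGraph V)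
    (hb : ∀ u v : V, G.Adj u v → (G.deleteEdges {s(u, v)}).Reachable u v)
    (σ : Equiv.Perm G.Dart) (h1 : ∀ d, (σ d).fst = d.fst)
    (h2 : ∀ d d' : G.Dart, d.fst = d'.fst → σ.SameCycle d d')
    (hg : ∀ K : G.ConnectedComponent, numE G K ≤ numV G K + numF G σ K) :
    ∃ C : List (Σ v : V, G.Walk v v), (∀ c ∈ C, c.2.IsCycle) ∧
      ∀ u v : V, G.Adj u v →
        (C.map (fun c => (c.2.darts.filter (fun d => decide (d.toProd = (u, v)))).length)).sum = 1 :=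
  main_simple a_cub (t_torc Pool.Agent.H34.OC.eul) Pool.Agent.H20.OC.TRU.t_tru
    Pool.Agent.H73.OC.t_bls Pool.Agent.H73.OC.t_fin V G hb σ h1 h2 hg

end Pool.Agent.H69.OC
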