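import Pool.Agent.H69.OC.Defs

/-!
# Basic lemmas
-/

set_option autoImplicit false
set_option linter.unusedSectionVars false
open scoped Classical
open Finset

namespace Pool.Agent.H69.OC

theorem sel_congr {D : Type} {A B : Finset D} {q r : D → Prop}
    (h : ∀ d, (d ∈ A ∧ q d) ↔ (d ∈ B ∧ r d)) : sel A q = sel B r := by
  ext d
  rw [mem_sel, mem_sel]
  exact h d

theorem sel_sub {D : Type} (A : Finset D) (q : D → Prop) : sel A q ⊆ A := by
  intro d hd
  exact (mem_sel.1 hd).1

theorem card_sel_le {D : Type} (A : Finset D) (q : D → Prop) : (sel A q).card ≤ A.card :=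
  card_le_card (sel_sub A q)

/-- splitting a selection -/
theorem card_sel_split {D : Type} (A : Finset D) (q r : D → Prop) :
    (sel A q).card = (sel A fun d => q d ∧ r d).card + (sel A fun d => q d ∧ ¬ r d).card := by
  rw [← card_union_of_disjoint]
  · congr 1
    ext d
    simp only [mem_sel, mem_union]
    tauto
  · rw [disjoint_left]
    intro d hd hd'
    simp only [mem_sel] at hd hd'
    tauto

namespace DG

variable {V D : Type} [Fintype V] [Fintype D] {G : DG V D}

theorem tgt_inv (d : D) : G.tgt (G.inv d) = G.src d := by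
  unfold tgt
  rw [G.inv_inv]

theorem src_inv (d : D) : G.src (G.inv d) = G.tgt d := rfl

theorem inv_inj {d d' : D} (h : G.inv d = G.inv d') : d = d' := by
  rw [← G.inv_inv d, h, G.inv_inv]

theorem inv_eq_iff {d d' : D} : G.inv d = d' ↔ d = G.inv d' := by
  constructor
  · rintro rfl
    rw [G.inv_inv]
  · rintro rfl
    rw [G.inv_inv]

theorem cl_univ : G.Cl univ := fun _ _ => mem_univ _

theorem Cl.mem_iff {A : Finset D} (h : G.Cl A) {d : D} : G.inv d ∈ A ↔ d ∈ A := by
  constructor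
  · intro h1
    have := h _ h1
    rwa [G.inv_inv] at this
  · exact h d

theorem Cl.sdiff {A B : Finset D} (hA : G.Cl A) (hB : G.Cl B) : G.Cl (A \ B) := by
  intro d hd
  rw [mem_sdiff] at hd ⊢
  exact ⟨hA _ hd.1, fun h => hd.2 ((hB.mem_iff).1 h)⟩

theorem Cl.union {A B : Finset D} (hA : G.Cl A) (hB : G.Cl B) : G.Cl (A ∪ B) := by
  intro d hd
  rw [mem_union] at hd ⊢
  exact hd.imp (hA d) (hB d)

theorem cl_pair (e : D) : G.Cl {e, G.inv e} := by
  intro d hd
  rw [mem_insert, mem_singleton] at hd ⊢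
  rcases hd with rfl | rfl
  · exact Or.inr rfl
  · exact Or.inl (G.inv_inv e)

theorem cl_sdiff_pair {A : Finset D} (hA : G.Cl A) (e : D) : G.Cl (A \ {e, G.inv e}) :=
  hA.sdiff (cl_pair e)

theorem mem_cut {A : Finset D} {W : Finset V} {d : D} :
    d ∈ G.cut A W ↔ d ∈ A ∧ G.src d ∈ W ∧ G.tgt d ∉ W := by
  simp [cut, mem_sel]

theorem mem_ee {P Q : Finset V} {d : D} : d ∈ G.ee P Q ↔ G.src d ∈ P ∧ G.tgt d ∈ Q := by
  simp [ee, mem_sel]

/-- reversal is a bijection on a selected set of darts -/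
theorem card_sel_inv {A : Finset D} (hA : G.Cl A) (q : D → Prop) :
    (sel A fun d => q (G.inv d)).card = (sel A q).card := by
  refine card_bij (fun d _ => G.inv d) ?_ ?_ ?_
  · intro d hd
    rw [mem_sel] at hd ⊢
    exact ⟨hA _ hd.1, hd.2⟩
  · intro d _ d' _ h
    exact inv_inj h
  · intro d hd
    rw [mem_sel] at hd
    refine ⟨G.inv d, ?_, G.inv_inv d⟩
    rw [mem_sel]
    refine ⟨hA _ hd.1, ?_⟩
    rw [G.inv_inv]
    exact hd.2

theorem cut_compl {A : Finset D} (hA : G.Cl A) (W : Finset V) :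
    (G.cut A Wᶜ).card = (G.cut A W).card := by
  have h := card_sel_inv hA (fun d => G.src d ∈ W ∧ G.tgt d ∉ W)
  rw [cut, cut, ← h]
  congr 1
  apply sel_congr
  intro d
  simp only [mem_compl, not_not, tgt_inv, src_inv]
  tauto

theorem mem_cut_compl {A : Finset D} (hA : G.Cl A) {W : Finset V} {d : D} :
    d ∈ G.cut A Wᶜ ↔ G.inv d ∈ G.cut A W := by
  rw [mem_cut, mem_cut, hA.mem_iff, mem_compl, mem_compl, not_not, tgt_inv, src_inv]
  tauto

theorem ee_comm (P Q : Finset V) : (G.ee P Q).card = (G.ee Q P).card := by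
  have h := card_sel_inv (G.cl_univ) (fun d => G.src d ∈ P ∧ G.tgt d ∈ Q)
  rw [ee, ee, ← h]
  congr 1
  apply sel_congr
  intro d
  simp only [tgt_inv, src_inv]
  tauto

/-- sum of the degrees in `W` -/
theorem sum_deg (A : Finset D) (q : D → Prop) (W : Finset V) :
    ∑ v ∈ W, (sel A fun d => G.src d = v ∧ q d).card =
      (sel A fun d => G.src d ∈ W ∧ q d).card := by
  have : (sel A fun d => G.src d ∈ W ∧ q d) =
      W.biUnion fun v => sel A fun d => G.src d = v ∧ q d := by
    ext d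
    simp only [mem_sel, mem_biUnion]
    constructor
    · rintro ⟨h0, h1, h2⟩
      exact ⟨_, h1, h0, rfl, h2⟩
    · rintro ⟨v, hv, h0, h1, h2⟩
      exact ⟨h0, h1 ▸ hv, h2⟩
  rw [this, card_biUnion]
  intro v _ v' _ hne
  rw [Function.onFun, disjoint_left]
  intro d hd hd'
  rw [mem_sel] at hd hd'
  exact hne (hd.2.1.symm.trans hd'.2.1)

/-- **Stokes**: over a set `W` of balanced vertices, the cut is balanced. -/
theorem stokes {A : Finset D} (hA : G.Cl A) {f : D → ℕ} {W : Finset V}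
    (hf : ∀ v ∈ W, G.BalAt A f v) (k : ℕ) :
    (sel (G.cut A W) fun d => f d = k).card =
      (sel (G.cut A W) fun d => f (G.inv d) = k).card := by
  have h1 : (sel A fun d => G.src d ∈ W ∧ f d = k).card =
      (sel A fun d => G.src d ∈ W ∧ f (G.inv d) = k).card := by
    rw [← sum_deg A (fun d => f d = k), ← sum_deg A (fun d => f (G.inv d) = k)]
    exact sum_congr rfl fun v hv => hf v hv k
  have h2 : (sel A fun d => (G.src d ∈ W ∧ G.tgt d ∈ W) ∧ f d = k).card =
      (sel A fun d => (G.src d ∈ W ∧ G.tgt d ∈ W) ∧ f (G.inv d) = k).card := by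
    rw [← card_sel_inv hA (fun d => (G.src d ∈ W ∧ G.tgt d ∈ W) ∧ f d = k)]
    congr 1
    apply sel_congr
    intro d
    simp only [tgt_inv, src_inv]
    tauto
  have split : ∀ q : D → Prop, (sel A fun d => G.src d ∈ W ∧ q d).card =
      (sel A fun d => (G.src d ∈ W ∧ G.tgt d ∈ W) ∧ q d).card +
        (sel (G.cut A W) q).card := by
    intro q
    rw [card_sel_split A (fun d => G.src d ∈ W ∧ q d) (fun d => G.tgt d ∈ W)]
    congr 2
    · apply sel_congr
      intro d
      tauto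
    · apply sel_congr
      intro d
      rw [mem_cut]
      tauto
  have s1 := split (fun d => f d = k)
  have s2 := split (fun d => f (G.inv d) = k)
  omega

/-- a finite set with a fixed-point free involution has an even number of elements -/
theorem even_card_of_inv {I : Finset D} (hcl : G.Cl I) : Even I.card := by
  have h : (∑ _d ∈ I, (1 : ZMod 2)) = 0 := by
    refine Finset.sum_involution (fun d _ => G.inv d) ?_ ?_ ?_ ?_
    · intro d _
      exact CharTwo.add_self_eq_zero _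
    · intro d _ _
      exact G.inv_ne d
    · intro d hd
      exact hcl d hd
    · intro d _
      exact G.inv_inv d
  rw [Finset.sum_const, nsmul_eq_mul, mul_one] at h
  exact (ZMod.natCast_eq_zero_iff_even).1 h

/-- parity of cuts in a cubic graph -/
theorem cut_parity (hG : G.Cub) (W : Finset V) :
    ∃ k, 3 * W.card = (G.cut univ W).card + 2 * k := by
  have h1 : (sel univ fun d => G.src d ∈ W).card = 3 * W.card := by
    have h := sum_deg (G := G) univ (fun _ => True) W
    simp only [and_true] at h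
    rw [← h, sum_congr rfl fun v _ => hG v, sum_const, smul_eq_mul, mul_comm]
  have h2 := card_sel_split (univ : Finset D) (fun d => G.src d ∈ W) (fun d => G.tgt d ∈ W)
  have h3 : Even (sel univ fun d => G.src d ∈ W ∧ G.tgt d ∈ W).card := by
    refine even_card_of_inv (G := G) ?_
    intro d hd
    rw [mem_sel] at hd ⊢
    simp only [mem_univ, true_and, tgt_inv, src_inv] at hd ⊢
    exact ⟨hd.2, hd.1⟩
  obtain ⟨k, hk⟩ := h3
  refine ⟨k, ?_⟩
  have h4 : (G.cut univ W).card = (sel univ fun d => G.src d ∈ W ∧ ¬ G.tgt d ∈ W).card := rfl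
  omega

/-- submodularity -/
theorem cut_submod (A : Finset D) (P Q : Finset V) :
    (G.cut A (P ∩ Q)).card + (G.cut A (P ∪ Q)).card ≤ (G.cut A P).card + (G.cut A Q).card := by
  have h1 : (G.cut A (P ∩ Q) ∪ G.cut A (P ∪ Q)) ⊆ G.cut A P ∪ G.cut A Q := by
    intro d hd
    rw [mem_union, mem_cut, mem_cut] at hd ⊢
    simp only [mem_inter, mem_union] at hd
    tauto
  have h2 : (G.cut A (P ∩ Q) ∩ G.cut A (P ∪ Q)) ⊆ G.cut A P ∩ G.cut A Q := by
    intro d hd
    rw [mem_inter, mem_cut, mem_cut] at hd ⊢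
    simp only [mem_inter, mem_union] at hd
    tauto
  rw [← card_union_add_card_inter, ← card_union_add_card_inter (G.cut A P)]
  exact Nat.add_le_add (card_le_card h1) (card_le_card h2)

/-- posimodularity -/
theorem cut_posimod {A : Finset D} (hA : G.Cl A) (P Q : Finset V) :
    (G.cut A (P \ Q)).card + (G.cut A (Q \ P)).card ≤ (G.cut A P).card + (G.cut A Q).card := by
  have h := cut_submod (G := G) A P Qᶜ
  rw [cut_compl hA Q] at h
  have e1 : P ∩ Qᶜ = P \ Q := by
    ext v
    simp [mem_sdiff]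
  have e2 : P ∪ Qᶜ = (Q \ P)ᶜ := by
    ext v
    simp only [mem_union, mem_compl, mem_sdiff]
    tauto
  rw [e1, e2, cut_compl hA] at h
  exact h

theorem cut_univ_eq {A : Finset D} : G.cut A univ = ∅ := by
  ext d
  simp [mem_cut]

theorem cut_empty_eq {A : Finset D} : G.cut A ∅ = ∅ := by
  ext d
  simp [mem_cut]

theorem cut_mono {A B : Finset D} (h : A ⊆ B) (W : Finset V) : G.cut A W ⊆ G.cut B W := by
  intro d hd
  rw [mem_cut] at hd ⊢
  exact ⟨h hd.1, hd.2⟩

theorem ind_add_ind {W : Finset V} {u v : V} : ind W u + ind W v = 0 ↔ (u ∈ W ↔ v ∈ W) := by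
  unfold ind
  by_cases h1 : u ∈ W <;> by_cases h2 : v ∈ W <;> simp [h1, h2] <;> decide

theorem ind_add_ind_one {W : Finset V} {u v : V} :
    ind W u + ind W v = 1 ↔ ¬ (u ∈ W ↔ v ∈ W) := by
  unfold ind
  by_cases h1 : u ∈ W <;> by_cases h2 : v ∈ W <;> simp [h1, h2] <;> decide

theorem ind_compl {W : Finset V} {v : V} : ind Wᶜ v = 1 + ind W v := by
  unfold ind
  by_cases h1 : v ∈ W <;> simp [h1] <;> decide

/-! ### Reachability -/

theorem Reach.left {A : Finset D} {X : Finset V} {a b : V} (h : G.Reach A X a b) : a ∈ X := h.1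

theorem Reach.right {A : Finset D} {X : Finset V} {a b : V} (h : G.Reach A X a b) : b ∈ X :=
  h.2 X (Subset.refl _) h.1 fun _ _ _ h2 => h2

theorem Reach.refl {A : Finset D} {X : Finset V} {a : V} (h : a ∈ X) : G.Reach A X a a :=
  ⟨h, fun _ _ h1 _ => h1⟩

theorem Reach.mono {A B : Finset D} {X Y : Finset V} {a b : V} (h : G.Reach A X a b)
    (hAB : A ⊆ B) (hXY : X ⊆ Y) : G.Reach B Y a b := by
  refine ⟨hXY h.1, fun Z _ haZ hZ => ?_⟩
  have h2 := h.2 (Z ∩ X) inter_subset_right (mem_inter.2 ⟨haZ, h.1⟩) ?_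
  · exact (mem_inter.1 h2).1
  · intro d hd h3 h4
    rw [mem_inter] at h3 ⊢
    exact ⟨hZ d (hAB hd) h3.1 (hXY h4), h4⟩

theorem Reach.tail {A : Finset D} {X : Finset V} {a : V} {d : D} (h : G.Reach A X a (G.src d))
    (hd : d ∈ A) (hX : G.tgt d ∈ X) : G.Reach A X a (G.tgt d) :=
  ⟨h.1, fun Z hZ haZ hcl => hcl d hd (h.2 Z hZ haZ hcl) hX⟩

theorem Reach.trans {A : Finset D} {X : Finset V} {a b c : V} (h : G.Reach A X a b)
    (h' : G.Reach A X b c) : G.Reach A X a c :=
  ⟨h.1, fun Z hZ haZ hcl => h'.2 Z hZ (h.2 Z hZ haZ hcl) hcl⟩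

/-- the set of vertices reachable from `a` -/
noncomputable def comp (G : DG V D) (A : Finset D) (X : Finset V) (a : V) : Finset V :=
  sel X fun v => G.Reach A X a v

theorem mem_comp {A : Finset D} {X : Finset V} {a v : V} :
    v ∈ G.comp A X a ↔ G.Reach A X a v := by
  rw [comp, mem_sel]
  exact ⟨fun h => h.2, fun h => ⟨h.right, h⟩⟩

theorem comp_sub {A : Finset D} {X : Finset V} {a : V} : G.comp A X a ⊆ X := sel_sub _ _

theorem Reach.symm {A : Finset D} (hA : G.Cl A) {X : Finset V} {a b : V}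
    (h : G.Reach A X a b) : G.Reach A X b a := by
  refine ⟨h.right, fun Z hZ hbZ hcl => ?_⟩
  by_contra ha
  have h2 := h.2 (X \ Z) sdiff_subset (mem_sdiff.2 ⟨h.1, ha⟩) ?_
  · exact (mem_sdiff.1 h2).2 hbZ
  · intro d hd h3 h4
    rw [mem_sdiff] at h3 ⊢
    refine ⟨h4, fun h5 => h3.2 ?_⟩
    have := hcl (G.inv d) (hA _ hd) (by rw [src_inv]; exact h5) (by rw [tgt_inv]; exact h3.1)
    rwa [tgt_inv] at this

/-- components have no edges to the rest -/
theorem comp_closed {A : Finset D} {X : Finset V} {a : V} {d : D} (hd : d ∈ A)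
    (h1 : G.src d ∈ G.comp A X a) (h2 : G.tgt d ∈ X) : G.tgt d ∈ G.comp A X a := by
  rw [mem_comp] at h1 ⊢
  exact h1.tail hd h2

theorem Conn.reach {A : Finset D} {X : Finset V} (h : G.Conn A X) {a b : V} (ha : a ∈ X)
    (hb : b ∈ X) : G.Reach A X a b := by
  refine ⟨ha, fun Z hZ haZ hcl => ?_⟩
  by_contra hbZ
  obtain ⟨d, hd, h1, h2, h3⟩ := h Z hZ ⟨a, haZ⟩ (fun h => hbZ (h ▸ hb))
  exact h3 (hcl d hd h1 h2)

theorem conn_of_reach {A : Finset D} {X : Finset V} {a : V}
    (h : ∀ b ∈ X, G.Reach A X a b) (hA : G.Cl A) : G.Conn A X := by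
  intro Z hZ hne hX
  by_contra hno
  push Not at hno
  have hcl : ∀ d ∈ A, G.src d ∈ Z → G.tgt d ∈ X → G.tgt d ∈ Z := hno
  obtain ⟨z, hz⟩ := hne
  have hz2 : G.Reach A X z a := (h z (hZ hz)).symm hA
  apply hX
  refine Subset.antisymm hZ fun b hb => ?_
  exact (hz2.trans (h b hb)).2 Z hZ hz hcl

theorem conn_comp {A : Finset D} (hA : G.Cl A) {X : Finset V} {a : V} :
    G.Conn A (G.comp A X a) := by
  by_cases ha : a ∈ X
  · refine conn_of_reach (a := a) (fun b hb => ?_) hA
    rw [mem_comp] at hb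
    refine ⟨mem_comp.2 (Reach.refl ha), fun Z hZ haZ hcl => ?_⟩
    refine hb.2 Z (hZ.trans comp_sub) haZ fun d hd h1 h2 => ?_
    exact hcl d hd h1 (comp_closed hd (hZ h1) h2)
  · intro Z hZ hne
    obtain ⟨z, hz⟩ := hne
    exact absurd (mem_comp.1 (hZ hz)).1 ha

theorem conn_singleton {A : Finset D} {v : V} : G.Conn A {v} := by
  intro Z hZ hne hX
  rcases Finset.subset_singleton_iff.1 hZ with h | h
  · exact absurd h hne.ne_empty
  · exact absurd h hX

theorem Conn.union {A : Finset D} (hA : G.Cl A) {X Y : Finset V} (hX : G.Conn A X)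
    (hY : G.Conn A Y) {d : D} (hd : d ∈ A) (h1 : G.src d ∈ X) (h2 : G.tgt d ∈ Y) :
    G.Conn A (X ∪ Y) := by
  refine conn_of_reach (a := G.src d) (fun b hb => ?_) hA
  have hx : G.Reach A (X ∪ Y) (G.src d) (G.tgt d) :=
    (Reach.refl (mem_union_left _ h1)).tail hd (mem_union_right _ h2)
  rcases mem_union.1 hb with h | h
  · exact (hX.reach h1 h).mono (Subset.refl _) subset_union_left
  · exact hx.trans ((hY.reach h2 h).mono (Subset.refl _) subset_union_right)

theorem Conn.mono {A B : Finset D} {X : Finset V} (h : G.Conn A X) (hAB : A ⊆ B) :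
    G.Conn B X := by
  intro Z hZ hne hX
  obtain ⟨d, hd, h1⟩ := h Z hZ hne hX
  exact ⟨d, hAB hd, h1⟩

end DG

end Pool.Agent.H69.OC
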