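import Pool.Agent.H69.OC.Targets

/-!
# Assembly: the theorem for cubic multigraphs
-/

set_option autoImplicit false
set_option linter.unusedSectionVars false
open scoped Classical
open Finset

namespace Pool.Agent.H69.OC

open DG

section

variable {V D : Type} [Fintype V] [Fintype D] {G : DG V D}

theorem PE.mono (hMONO : T_MONO) {A B : Finset D} (hA : G.Cl A) (hB : G.Cl B) (hBA : B ⊆ A)
    (h : G.PE A) : G.PE B := by
  obtain ⟨E, hE, hc, hpl⟩ := h
  exact ⟨E, hE, hc, hMONO V D G (A \ E) (B \ E) (hA.sdiff hE) (hB.sdiff hE)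
    (sdiff_subset_sdiff hBA (Subset.refl _)) hpl⟩

/-- with `C3` there are no loops -/
theorem no_loop (hG : G.Cub) (h3 : G.C3) (hV : 2 ≤ Fintype.card V) (d : D) :
    G.src d ≠ G.tgt d := by
  intro h
  have hne : ({G.src d} : Finset V) ≠ univ := by
    intro h1
    have := congrArg card h1
    rw [card_singleton, card_univ] at this
    omega
  have h1 := h3 {G.src d} (singleton_nonempty _) hne
  have h2 := hG (G.src d)
  have h4 : G.cut univ {G.src d} ⊆ (sel univ fun c => G.src c = G.src d).erase d := by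
    intro c hc
    rw [mem_cut] at hc
    rw [mem_erase, mem_sel]
    refine ⟨?_, mem_univ _, mem_singleton.1 hc.2.1⟩
    rintro rfl
    exact hc.2.2 (mem_singleton.2 h.symm)
  have h5 := card_le_card h4
  have hm : d ∈ sel univ fun c => G.src c = G.src d := mem_sel.2 ⟨mem_univ _, rfl⟩
  rw [card_erase_of_mem hm, h2] at h5
  omega

theorem pair_inv (e : D) : ({G.inv e, G.inv (G.inv e)} : Finset D) = {e, G.inv e} := by
  rw [G.inv_inv, Finset.pair_comm]

theorem cub_even (hG : G.Cub) : ∃ k, 3 * Fintype.card V = 2 * k := by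
  obtain ⟨k, hk⟩ := cut_parity hG univ
  rw [cut_univ_eq, card_empty, zero_add, card_univ] at hk
  exact ⟨k, hk⟩

/-- reduction at a pocket -/
theorem pocket_cov (hR4 : T_R4) (hPORTS : T_PORTS) (hSIX : T_SIX) (hSUBP : T_SUBP) (hD1 : T_D1)
    (hODD : T_ODD) (hRED : T_RED) (hEXT : T_EXT) (hG : G.Cub) (h3 : G.C3) (h4 : G.C4)
    (hIH : G.IH) (hP : ∃ X g, G.Pocket X g) : ∃ lam, G.Cov univ lam := by
  -- a minimal pocket
  have hmin : ∃ X g, G.Pocket X g ∧ G.Mini X := by
    obtain ⟨X, hX, hXmin⟩ := exists_min_image (univ.filter fun X : Finset V => ∃ g, G.Pocket X g)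
      card (by
        obtain ⟨X, hX⟩ := hP
        exact ⟨X, mem_filter.2 ⟨mem_univ _, hX⟩⟩)
    obtain ⟨g, hg⟩ := (mem_filter.1 hX).2
    refine ⟨X, g, hg, fun W hW hc h4W => ?_⟩
    have h5 := hSUBP V D G hG h3 h4 X g hg W hW hc h4W
    have h6 := hXmin W (mem_filter.2 ⟨mem_univ _, g, h5⟩)
    exact eq_of_subset_of_card_le hW h6
  obtain ⟨X, g, hg, hmini⟩ := hmin
  have hcard : X.card + Xᶜ.card = Fintype.card V := card_add_card_compl X
  have hbig := hg.big
  have hco := hg.co
  have h5V : 5 ≤ Fintype.card V := by omega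
  by_cases hNQ : G.NoQuad
  · have h6 := hSIX V D G hG h3 h4 hNQ X hg.four hg.big hg.co
    obtain ⟨d1, d2, d3, d4, hports⟩ := hPORTS V D G hG h3 h4 X g hg
    obtain ⟨V1, t, p, h, hconf, hodd, ht⟩ :=
      hODD V D G hG h3 h4 X g hg hmini h6 d1 d2 d3 d4 hports
    obtain ⟨mu, hm1, hm2, hm3, hm4, hm5⟩ :=
      hRED V D G hG h3 hIH X g hg d1 d2 d3 d4 hports V1 t p h hconf ht
    exact hEXT V D G hG X g hg (hD1 V D G hG h3 h4 X g hg) d1 d2 d3 d4 hports V1 t p h hconf hodd
      mu hm1 hm2 hm3 hm4 hm5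
  · unfold NoQuad at hNQ
    push Not at hNQ
    obtain ⟨c1, c2, c3, c4, a1, a2, a3, a4, a5, a6, a7, a8, a9, a10, -⟩ := hNQ
    exact hR4 V D G hG h3 h4 hIH h5V c1 c2 c3 c4 a1 a2 a3 a4 a5 a6 a7 a8 a9 a10

/-- cubic graphs with `C3`, `C4` and at least four vertices -/
theorem main_cov (hR4 : T_R4) (hMONO : T_MONO) (hLAB : T_LAB) (hNORM : T_NORM)
    (hE1 : T_ECL1) (hE2 : T_ECL2) (hPORTS : T_PORTS) (hSIX : T_SIX) (hSUBP : T_SUBP) (hD1 : T_D1)
    (hODD : T_ODD) (hRED : T_RED) (hEXT : T_EXT) (hEX1 : T_EX1) (hEX2 : T_EX2) (hPATH : T_PATH)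
    (hRING1 : T_RING1) (hRING2 : T_RING2) (hG : G.Cub) (h3 : G.C3) (h4 : G.C4)
    (hIH : G.IH) (hPE : G.PE univ) (hV : 3 ≤ Fintype.card V) : ∃ lam, G.Cov univ lam := by
  by_cases hP : ∃ X g, G.Pocket X g
  · exact pocket_cov hR4 hPORTS hSIX hSUBP hD1 hODD hRED hEXT hG h3 h4 hIH hP
  -- the exceptional edge
  have hne : Nonempty D := by
    by_contra hno
    rw [not_nonempty_iff] at hno
    obtain ⟨v⟩ : Nonempty V := Fintype.card_pos_iff.1 (by omega)
    have h1 := hG v
    rw [card_eq_zero.2 (Finset.eq_empty_of_forall_notMem fun d _ => hno.elim d)] at h1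
    omega
  have hex : ∃ e : D, G.Pl (univ \ {e, G.inv e}) := by
    obtain ⟨E, hE, hc, hpl⟩ := hPE
    rcases E.eq_empty_or_nonempty with h0 | ⟨e, he⟩
    · obtain ⟨e⟩ := hne
      refine ⟨e, hMONO V D G _ _ (G.cl_univ.sdiff hE) (cl_sdiff_pair G.cl_univ e) ?_ hpl⟩
      rw [h0]
      intro d _
      simp
    · refine ⟨e, ?_⟩
      have h1 : ({e, G.inv e} : Finset D) ⊆ E := by
        intro d hd
        rw [mem_insert, mem_singleton] at hd
        rcases hd with rfl | rfl
        · exact he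
        · exact hE _ he
      have h2 : ({e, G.inv e} : Finset D) = E := by
        refine eq_of_subset_of_card_le h1 ?_
        rw [card_pair (G.inv_ne e).symm]
        exact hc
      rw [h2]
      exact hpl
  obtain ⟨e, hpl⟩ := hex
  obtain ⟨f, hbal, heul, horb⟩ := hLAB V D G _ (cl_sdiff_pair G.cl_univ e) hpl
  have hloop := no_loop hG h3 (by omega : 2 ≤ Fintype.card V) e
  rcases hEX1 V D G hG h3 e hloop hV with ⟨X, hX1, hX2, hX3, hX4, hX5, hX6⟩ |
    ⟨B, Z, hB, hZ, hBZ, hs, ht, hZc, hCc, hQ, hN⟩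
  · obtain ⟨n, v, c, hpath⟩ := hPATH V D G hG h3 e X hloop hX3 hX5 hX6
    obtain ⟨h, l, hring⟩ := hRING1 V D G hG h3 e f hbal heul X n v c hX3 hX4 hpath
    exact hRING2 V D G hG e f hbal X n v c hpath h l hring
  · exfalso
    rcases hEX2 V D G hG h3 h4 e hloop B Z hB hZ hBZ hs ht hZc hCc hQ hN with
      ⟨S, hS1, hS2, hS3, hS4, hS5⟩ | ⟨e', p, l, r, S, he', hS1, hS2, hS3, hS4, hS5, hS6⟩
    · exact hP ⟨S, f, hNORM V D G hG h3 h4 e f hbal heul horb S hS1 hS2 hS3 hS4 hS5⟩
    · have key : ∃ c, c ≠ e' ∧ G.src c = G.src e' ∧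
          ((f l = f c ∧ f (G.inv r) = f c) ∨ (f r = f c ∧ f (G.inv l) = f c)) := by
        rcases he' with rfl | rfl
        · exact hE1 V D G hG h3 h4 e' f hbal heul horb S p l r hS1 hS2 hS3 hS4 hS5 hS6
        · have hp := pair_inv (G := G) e
          refine hE1 V D G hG h3 h4 (G.inv e) f ?_ ?_ ?_ S p l r hS1 hS2 hS3 hS4 hS5 ?_
          · rw [hp]; exact hbal
          · rw [hp]; exact heul
          · rw [hp]; exact horb
          · rw [hp]; exact hS6
      have hcomm : ∀ l r : D, (∀ d, d ∈ G.cut univ S ↔ (d = e' ∨ d = p ∨ d = l ∨ d = r)) →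
          (∃ c, c ≠ e' ∧ G.src c = G.src e' ∧ f l = f c ∧ f (G.inv r) = f c) → False := by
        intro l r hcut hc
        apply hP
        rcases he' with rfl | rfl
        · obtain ⟨g, hg⟩ := hE2 V D G hG h3 h4 e' f hbal heul horb S p l r hS1 hcut hS3 hS4 hS5 hc
          exact ⟨S, g, hg⟩
        · have hp := pair_inv (G := G) e
          obtain ⟨g, hg⟩ := hE2 V D G hG h3 h4 (G.inv e) f (by rw [hp]; exact hbal)
            (by rw [hp]; exact heul) (by rw [hp]; exact horb) S p l r hS1 hcut hS3 hS4 hS5 hc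
          exact ⟨S, g, hg⟩
      obtain ⟨c, hc1, hc2, hc3 | hc3⟩ := key
      · exact hcomm l r hS2 ⟨c, hc1, hc2, hc3.1, hc3.2⟩
      · refine hcomm r l ?_ ⟨c, hc1, hc2, hc3.1, hc3.2⟩
        intro d
        rw [hS2 d]
        tauto

end

theorem t_cub (hR2 : T_R2) (hR3 : T_R3) (hTH : T_THETA) (hR4 : T_R4) (hMONO : T_MONO)
    (hLAB : T_LAB) (hSUP : T_SUP) (hNORM : T_NORM)
    (hE1 : T_ECL1) (hE2 : T_ECL2) (hPORTS : T_PORTS) (hSIX : T_SIX) (hSUBP : T_SUBP) (hD1 : T_D1)
    (hODD : T_ODD) (hRED : T_RED) (hEXT : T_EXT) (hEX1 : T_EX1) (hEX2 : T_EX2) (hPATH : T_PATH)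
    (hRING1 : T_RING1) (hRING2 : T_RING2) : T_CUB := by
  suffices H : ∀ n : ℕ, ∀ (V D : Type) [Fintype V] [Fintype D] (G : DG V D),
      Fintype.card D = n → G.Cub → G.BL univ → G.PE univ → ∃ lam, G.Cov univ lam by
    intro V D _ _ G
    exact H (Fintype.card D) V D G rfl
  intro n
  induction n using Nat.strong_induction_on with
  | _ n ih =>
    intro V D _ _ G hn hG hBL hPE
    have hIH : G.IH := by
      intro A hA hne hBA
      have hlt : A.card < Fintype.card D := by
        rw [← card_univ]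
        exact card_lt_card ((ssubset_univ_iff).2 hne)
      refine hSUP V D G A hA hBA ?_ (PE.mono hMONO G.cl_univ hA (subset_univ _) hPE) ?_
      · intro v
        calc (sel A fun d => G.src d = v).card ≤ (sel univ fun d => G.src d = v).card := by
              apply card_le_card
              intro d hd
              rw [mem_sel] at hd ⊢
              exact ⟨mem_univ _, hd.2⟩
          _ = 3 := hG v
          _ ≤ 3 := le_refl 3
      · intro V' D' _ _ G' hc hG' hBL' hPE'
        exact ih (Fintype.card D') (by omega) V' D' G' rfl hG' hBL' hPE'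
    by_cases h3 : G.C3
    · by_cases h4 : G.C4
      · obtain ⟨k, hk⟩ := cub_even hG
        rcases Nat.lt_or_ge (Fintype.card V) 3 with hlt | hge
        · have h02 : Fintype.card V = 0 ∨ Fintype.card V = 2 := by omega
          rcases h02 with h0 | h2
          · refine ⟨fun _ => 0, ?_, ?_⟩
            · intro d
              have := Fintype.card_eq_zero_iff.1 h0
              exact this.elim (G.src d)
            · intro v
              have := Fintype.card_eq_zero_iff.1 h0
              exact this.elim v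
          · exact hTH V D G hG h3 h2
        · exact main_cov hR4 hMONO hLAB hNORM hE1 hE2 hPORTS hSIX hSUBP hD1 hODD hRED hEXT hEX1
            hEX2 hPATH hRING1 hRING2 hG h3 h4 hIH hPE hge
      · unfold C4 at h4
        push Not at h4
        obtain ⟨W, hW1, hW2, hW3⟩ := h4
        exact hR3 V D G hG h3 hIH W hW1 hW2 (by omega)
    · unfold C3 at h3
      push Not at h3
      obtain ⟨W, hW1, hW2, hW3⟩ := h3
      exact hR2 V D G hG hBL hIH W hW1 hW2 (by omega)

end Pool.Agent.H69.OC
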