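import Mathlib

/-!
# Oriented cycle double covers of toroidal graphs: definitions

Multigraphs are given by darts. `lam d` is the label of the directed cycle which traverses the
dart `d` in its direction.
-/

set_option autoImplicit false
set_option linter.unusedSectionVars false
open scoped Classical
open Finset

namespace Pool.Agent.H69.OC

/-- A multigraph by darts: `src d` is the tail of the dart `d`, `inv d` the reversed dart. -/
structure DG (V D : Type) where
  src : D → V
  inv : D → D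
  inv_inv : ∀ d, inv (inv d) = d
  inv_ne : ∀ d, inv d ≠ d

/-- `Finset.filter` with the classical decidability instance (always use this one) -/
noncomputable def sel {D : Type} (A : Finset D) (q : D → Prop) : Finset D :=
  @Finset.filter D q (fun _ => Classical.propDecidable _) A

theorem mem_sel {D : Type} {A : Finset D} {q : D → Prop} {d : D} : d ∈ sel A q ↔ d ∈ A ∧ q d := by
  unfold sel
  exact Finset.mem_filter

namespace DG

variable {V D : Type} [Fintype V] [Fintype D] (G : DG V D)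

/-- head of a dart -/
def tgt (d : D) : V := G.src (G.inv d)

/-- a set of darts closed under reversal, i.e. a set of edges -/
def Cl (A : Finset D) : Prop := ∀ d ∈ A, G.inv d ∈ A

/-- all vertices have degree three -/
def Cub : Prop := ∀ v, (sel univ fun d => G.src d = v).card = 3

/-- darts of `A` leaving `W` -/
noncomputable def cut (A : Finset D) (W : Finset V) : Finset D :=
  sel A fun d => G.src d ∈ W ∧ G.tgt d ∉ W

/-- darts from `P` to `Q` -/
noncomputable def ee (P Q : Finset V) : Finset D :=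
  sel univ fun d => G.src d ∈ P ∧ G.tgt d ∈ Q

/-- the edges `A` form a graph without cut edges -/
def BL (A : Finset D) : Prop := ∀ W : Finset V, (G.cut A W).card ≠ 1

/-- cuts of the whole graph have at least three edges -/
def C3 : Prop := ∀ W : Finset V, W.Nonempty → W ≠ univ → 3 ≤ (G.cut univ W).card

/-- nontrivial cuts of the whole graph have at least four edges -/
def C4 : Prop := ∀ W : Finset V, 2 ≤ W.card → 2 ≤ Wᶜ.card → 4 ≤ (G.cut univ W).card

/-- no cycle of length four -/
def NoQuad : Prop := ∀ c1 c2 c3 c4 : D,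
  G.tgt c1 = G.src c2 → G.tgt c2 = G.src c3 → G.tgt c3 = G.src c4 → G.tgt c4 = G.src c1 →
  G.src c1 ≠ G.src c2 → G.src c1 ≠ G.src c3 → G.src c1 ≠ G.src c4 →
  G.src c2 ≠ G.src c3 → G.src c2 ≠ G.src c4 → G.src c3 ≠ G.src c4 → False

/-- out-labels and in-labels at `v` agree as multisets -/
def BalAt (A : Finset D) (f : D → ℕ) (v : V) : Prop := ∀ k,
  (sel A fun d => G.src d = v ∧ f d = k).card =
    (sel A fun d => G.src d = v ∧ f (G.inv d) = k).card

def Bal (A : Finset D) (f : D → ℕ) : Prop := ∀ v, G.BalAt A f v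

/-- oriented cycle double cover of the graph with edge set `A` -/
def Cov (A : Finset D) (lam : D → ℕ) : Prop :=
  (∀ d ∈ A, lam d ≠ lam (G.inv d)) ∧ G.Bal A lam

/-- induction hypothesis: proper subgraphs without cut edges have oriented cycle double covers -/
def IH : Prop := ∀ A : Finset D, G.Cl A → A ≠ univ → G.BL A → ∃ lam, G.Cov A lam

/-- indicator function -/
noncomputable def ind (W : Finset V) (v : V) : ZMod 2 := if v ∈ W then 1 else 0

/-- every set of edges of `A` which is even on all faces (labels `f`) is a cut -/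
def Eul (A : Finset D) (f : D → ℕ) : Prop := ∀ x : D → ZMod 2,
  (∀ d, x (G.inv d) = x d) → (∀ k, ∑ d ∈ sel A (fun d => f d = k), x d = 0) →
  ∃ W : Finset V, ∀ d ∈ A, x d = ind W (G.src d) + ind W (G.tgt d)

/-- `s` is a rotation system of the graph with edge set `A` -/
def Rot (A : Finset D) (s : Equiv.Perm D) : Prop :=
  (∀ d ∈ A, s d ∈ A ∧ G.src (s d) = G.src d) ∧
  (∀ d ∈ A, ∀ d' ∈ A, G.src d = G.src d' → s.SameCycle d d')

/-- planar structure on the graph with edge set `A`: a rotation system and a labelling of the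
faces (the face to the left of `d` continues with `s (inv d)`) such that dual cycles are cuts -/
def Pl (A : Finset D) : Prop := ∃ (s : Equiv.Perm D) (f : D → ℕ),
  G.Rot A s ∧ (∀ d ∈ A, f (s (G.inv d)) = f d) ∧ G.Eul A f

/-- planar after removal of at most one edge -/
def PE (A : Finset D) : Prop := ∃ E : Finset D, G.Cl E ∧ E.card ≤ 2 ∧ G.Pl (A \ E)

/-- every face label is a single facial walk -/
def Orb (A : Finset D) (f : D → ℕ) : Prop := ∀ S ⊆ A, S.Nonempty →
  (∀ d ∈ S, ∀ d' ∈ A, G.src d' = G.tgt d → f d' = f d → d' ∈ S) →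
  ∀ d ∈ S, ∀ d' ∈ A, f d' = f d → d' ∈ S

/-- `X` is connected by the edges of `A` -/
def Conn (A : Finset D) (X : Finset V) : Prop := ∀ Z ⊆ X, Z.Nonempty → Z ≠ X →
  ∃ d ∈ A, G.src d ∈ Z ∧ G.tgt d ∈ X ∧ G.tgt d ∉ Z

/-- `b` can be reached from `a` inside `X` by edges of `A` -/
def Reach (A : Finset D) (X : Finset V) (a b : V) : Prop := a ∈ X ∧ ∀ Z ⊆ X, a ∈ Z →
  (∀ d ∈ A, G.src d ∈ Z → G.tgt d ∈ X → G.tgt d ∈ Z) → b ∈ Z

/-- `B` induces a 2-edge-connected graph (a single vertex is allowed) -/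
def BB (B : Finset V) : Prop := ∀ Z ⊆ B, Z.Nonempty → Z ≠ B → 2 ≤ (G.ee Z (B \ Z)).card

/-- the dart `d` touches `X` -/
def Tc (X : Finset V) (d : D) : Prop := G.src d ∈ X ∨ G.tgt d ∈ X

/-- planar pole: the part `X` of `G` with the cut edges, with faces labelled by `g` -/
structure Pole (X : Finset V) (g : D → ℕ) : Prop where
  bal : ∀ v ∈ X, G.BalAt univ g v
  eul : ∀ x : D → ZMod 2, (∀ d, x (G.inv d) = x d) → (∀ d, ¬ G.Tc X d → x d = 0) →
    (∀ k, ∑ d ∈ sel univ (fun d => G.Tc X d ∧ g d = k), x d = 0) →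
    ∃ W : Finset V, W ⊆ X ∧ ∀ d, x d = ind W (G.src d) + ind W (G.tgt d)
  orb : ∀ S : Finset D, S.Nonempty → (∀ d ∈ S, G.src d ∈ X ∧ G.tgt d ∈ X) →
    (∀ d ∈ S, ∀ d', G.src d' = G.tgt d → g d' = g d → d' ∈ S) →
    ∀ d ∈ S, ∀ d', G.Tc X d' → g d' = g d → d' ∈ S

/-- a pocket: a planar pole with four dangling edges -/
structure Pocket (X : Finset V) (g : D → ℕ) : Prop extends G.Pole X g where
  four : (G.cut univ X).card = 4
  big : 4 ≤ X.card
  co : 2 ≤ Xᶜ.card

/-- no smaller pockets -/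
def Mini (X : Finset V) : Prop := ∀ W ⊆ X, (G.cut univ W).card = 4 → 4 ≤ W.card → W = X

/-- the dangling edges of a pocket in cyclic order; the outer faces are
`g d1, g d2, g d3, g d4` -/
structure Ports (X : Finset V) (g : D → ℕ) (d1 d2 d3 d4 : D) : Prop where
  cut : ∀ d, d ∈ G.cut univ X ↔ (d = d1 ∨ d = d2 ∨ d = d3 ∨ d = d4)
  h12 : g (G.inv d1) = g d2
  h23 : g (G.inv d2) = g d3
  h34 : g (G.inv d3) = g d4
  h41 : g (G.inv d4) = g d1
  n12 : g d1 ≠ g d2
  n13 : g d1 ≠ g d3
  n14 : g d1 ≠ g d4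
  n23 : g d2 ≠ g d3
  n24 : g d2 ≠ g d4
  n34 : g d3 ≠ g d4

/-- vertices of `X` on the face `k` -/
noncomputable def touch (X : Finset V) (g : D → ℕ) (k : ℕ) : Finset V :=
  sel X fun v => ∃ d, G.src d = v ∧ g d = k

/-- Configuration: `V1` is a part of the pocket `X` containing the ports `d1, d2`, not `d3, d4`;
the other edges leaving `V1` are `h 0, …, h (t-1)`, and they separate the faces
`p 0 = g d1, p 1, …, p t = g d3`, which form an induced path in the dual. -/
structure Conf (X : Finset V) (g : D → ℕ) (d1 d2 d3 d4 : D) (V1 : Finset V) (t : ℕ)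
    (p : ℕ → ℕ) (h : ℕ → D) : Prop where
  sub : V1 ⊆ X
  cut : ∀ d, d ∈ G.cut univ V1 ↔ (d = d1 ∨ d = d2 ∨ ∃ i < t, d = h i)
  inX : ∀ i < t, G.tgt (h i) ∈ X
  hp : ∀ i < t, g (G.inv (h i)) = p i ∧ g (h i) = p (i + 1)
  p0 : p 0 = g d1
  pt : p t = g d3
  inj : ∀ i ≤ t, ∀ j ≤ t, p i = p j → i = j
  n2 : ∀ i ≤ t, p i ≠ g d2
  n4 : ∀ i ≤ t, p i ≠ g d4
  ch : ∀ d, G.Tc X d → ∀ i ≤ t, ∀ j ≤ t, g d = p i → g (G.inv d) = p j → i = j + 1 ∨ j = i + 1

end DG

end Pool.Agent.H69.OC
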