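import Pool.Agent.H69.OC.Basic2
import Pool.Agent.H7.TF.Defs

/-!
# Targets of the modules (MP_781dd6_co, toroidal graphs)
-/

set_option autoImplicit false
set_option linter.unusedSectionVars false
open scoped Classical
open Finset

namespace Pool.Agent.H69.OC

open DG

/-! ## Reductions at small cuts -/

/-- cuts with at most two edges -/
def T_R2 : Prop := ∀ (V D : Type) [Fintype V] [Fintype D] (G : DG V D), G.Cub → G.BL univ →
  G.IH → ∀ W : Finset V, W.Nonempty → W ≠ univ → (G.cut univ W).card ≤ 2 → ∃ lam, G.Cov univ lam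

/-- nontrivial cuts with three edges -/
def T_R3 : Prop := ∀ (V D : Type) [Fintype V] [Fintype D] (G : DG V D), G.Cub → G.C3 →
  G.IH → ∀ W : Finset V, 2 ≤ W.card → 2 ≤ Wᶜ.card → (G.cut univ W).card ≤ 3 →
  ∃ lam, G.Cov univ lam

/-- two vertices -/
def T_THETA : Prop := ∀ (V D : Type) [Fintype V] [Fintype D] (G : DG V D), G.Cub → G.C3 →
  Fintype.card V = 2 → ∃ lam, G.Cov univ lam

/-- following the cycle labelled `lam d0` from the dart `d0` entering `Y` until it leaves `Y` -/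
def T_SPLIT : Prop := ∀ (V D : Type) [Fintype V] [Fintype D] (G : DG V D), G.Cub →
  ∀ (Y : Finset V) (lam : D → ℕ), (∀ v ∈ Y, G.BalAt univ lam v) →
  (∀ d, G.Tc Y d → lam d ≠ lam (G.inv d)) → ∀ d0, G.src d0 ∉ Y → G.tgt d0 ∈ Y →
  ∃ S : Finset D, d0 ∈ S ∧ (∀ d ∈ S, lam d = lam d0 ∧ G.Tc Y d) ∧
    (∀ d ∈ S, G.src d ∉ Y → d = d0) ∧
    (∀ v ∈ Y, (sel univ fun d => G.src d = v ∧ d ∈ S).card =
      (sel univ fun d => G.src d = v ∧ G.inv d ∈ S).card) ∧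
    ∃ d1 ∈ S, G.src d1 ∈ Y ∧ G.tgt d1 ∉ Y ∧ ∀ d ∈ S, G.src d ∈ Y → G.tgt d ∉ Y → d = d1

/-- cycles of length four -/
def T_R4 : Prop := ∀ (V D : Type) [Fintype V] [Fintype D] (G : DG V D), G.Cub → G.C3 → G.C4 →
  G.IH → 5 ≤ Fintype.card V → ∀ c1 c2 c3 c4 : D,
  G.tgt c1 = G.src c2 → G.tgt c2 = G.src c3 → G.tgt c3 = G.src c4 → G.tgt c4 = G.src c1 →
  G.src c1 ≠ G.src c2 → G.src c1 ≠ G.src c3 → G.src c1 ≠ G.src c4 →
  G.src c2 ≠ G.src c3 → G.src c2 ≠ G.src c4 → G.src c3 ≠ G.src c4 → ∃ lam, G.Cov univ lam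

/-! ## Planar structures -/

/-- one edge less -/
def T_DEL : Prop := ∀ (V D : Type) [Fintype V] [Fintype D] (G : DG V D) (A : Finset D) (e : D),
  G.Cl A → e ∈ A → G.Pl A → G.Pl (A \ {e, G.inv e})

/-- subgraphs -/
def T_MONO : Prop := ∀ (V D : Type) [Fintype V] [Fintype D] (G : DG V D) (A B : Finset D),
  G.Cl A → G.Cl B → B ⊆ A → G.Pl A → G.Pl B

/-- good labels of the faces -/
def T_LAB : Prop := ∀ (V D : Type) [Fintype V] [Fintype D] (G : DG V D) (A : Finset D),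
  G.Cl A → G.Pl A → ∃ f, G.Bal A f ∧ G.Eul A f ∧ G.Orb A f

/-- suppressing vertices of degree two: if all cubic multigraphs with at most `A.card` darts (no cut
edges, planar up to one edge) have an oriented cycle double cover, so has the graph `A` -/
def T_SUP : Prop := ∀ (V D : Type) [Fintype V] [Fintype D] (G : DG V D) (A : Finset D),
  G.Cl A → G.BL A → (∀ v, (sel A fun d => G.src d = v).card ≤ 3) → G.PE A →
  (∀ (V' D' : Type) [Fintype V'] [Fintype D'] (G' : DG V' D'), Fintype.card D' ≤ A.card →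
    G'.Cub → G'.BL univ → G'.PE univ → ∃ lam, G'.Cov univ lam) →
  ∃ lam, G.Cov A lam

/-- The walk along the face `f d0` from the dart `d0` entering `Y` to the dart `d1` leaving `Y`
(the only dart with this label leaving `Y`); if no part of the face is closed inside `Y`, it
contains all darts of the face starting in `Y`. -/
def T_WALK : Prop := ∀ (V D : Type) [Fintype V] [Fintype D] (G : DG V D) (A : Finset D)
  (f : D → ℕ) (Y : Finset V), G.Cl A → (∀ v ∈ Y, G.BalAt A f v) →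
  (∀ v ∈ Y, (sel A fun d => G.src d = v).card ≤ 3) →
  (∀ d ∈ A, G.Tc Y d → f d ≠ f (G.inv d)) →
  ∀ d0 ∈ A, G.src d0 ∉ Y → G.tgt d0 ∈ Y → ∀ d1,
  (∀ d ∈ A, G.src d ∈ Y → G.tgt d ∉ Y → f d = f d0 → d = d1) →
  (∀ R ⊆ A, R.Nonempty → (∀ d ∈ R, G.src d ∈ Y ∧ G.tgt d ∈ Y ∧ f d = f d0) →
    (∀ d ∈ R, ∀ d' ∈ A, G.src d' = G.tgt d → f d' = f d → d' ∈ R) → False) →
  ∃ (n : ℕ) (o : ℕ → D), o 0 = d0 ∧ o (n + 1) = d1 ∧ (∀ i ≤ n + 1, o i ∈ A ∧ f (o i) = f d0) ∧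
    (∀ i ≤ n, G.tgt (o i) = G.src (o (i + 1)) ∧ G.tgt (o i) ∈ Y) ∧ G.tgt (o (n + 1)) ∉ Y ∧
    (∀ i ≤ n, ∀ j ≤ n, G.tgt (o i) = G.tgt (o j) → i = j) ∧
    ∀ d ∈ A, G.src d ∈ Y → f d = f d0 → ∃ i ≤ n, d = o (i + 1)

/-- a part with four dangling edges, not containing the ends of `e`, is a pocket -/
def T_NORM : Prop := ∀ (V D : Type) [Fintype V] [Fintype D] (G : DG V D), G.Cub → G.C3 → G.C4 →
  ∀ (e : D) (f : D → ℕ), G.Bal (univ \ {e, G.inv e}) f → G.Eul (univ \ {e, G.inv e}) f →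
  G.Orb (univ \ {e, G.inv e}) f → ∀ S : Finset V, G.src e ∉ S → G.tgt e ∉ S →
  (G.cut univ S).card = 4 → 4 ≤ S.card → 3 ≤ Sᶜ.card → G.Pocket S f

/-- The part `S` has the dangling edges `e, p, l, r` (`e` is the extra edge), and there are no
disjoint connections of `src e` with `src p` and of `src l` with `src r`: then `src e` is on the
face between `l` and `r`. -/
def T_ECL1 : Prop := ∀ (V D : Type) [Fintype V] [Fintype D] (G : DG V D), G.Cub → G.C3 → G.C4 →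
  ∀ (e : D) (f : D → ℕ), G.Bal (univ \ {e, G.inv e}) f → G.Eul (univ \ {e, G.inv e}) f →
  G.Orb (univ \ {e, G.inv e}) f → ∀ (S : Finset V) (p l r : D), G.src e ∈ S →
  (∀ d, d ∈ G.cut univ S ↔ (d = e ∨ d = p ∨ d = l ∨ d = r)) → (G.cut univ S).card = 4 →
  4 ≤ S.card → 2 ≤ Sᶜ.card →
  (∀ Q ⊆ S, G.Conn univ Q → G.src l ∈ Q → G.src r ∈ Q →
    ¬ G.Reach (univ \ {e, G.inv e}) (S \ Q) (G.src e) (G.src p)) →
  ∃ c, c ≠ e ∧ G.src c = G.src e ∧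
    ((f l = f c ∧ f (G.inv r) = f c) ∨ (f r = f c ∧ f (G.inv l) = f c))

/-- splitting the face at the end of `e` -/
def T_ECL2 : Prop := ∀ (V D : Type) [Fintype V] [Fintype D] (G : DG V D), G.Cub → G.C3 → G.C4 →
  ∀ (e : D) (f : D → ℕ), G.Bal (univ \ {e, G.inv e}) f → G.Eul (univ \ {e, G.inv e}) f →
  G.Orb (univ \ {e, G.inv e}) f → ∀ (S : Finset V) (p l r : D), G.src e ∈ S →
  (∀ d, d ∈ G.cut univ S ↔ (d = e ∨ d = p ∨ d = l ∨ d = r)) → (G.cut univ S).card = 4 →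
  4 ≤ S.card → 2 ≤ Sᶜ.card →
  (∃ c, c ≠ e ∧ G.src c = G.src e ∧ f l = f c ∧ f (G.inv r) = f c) →
  ∃ g, G.Pocket S g

/-! ## Pockets -/

def T_PORTS : Prop := ∀ (V D : Type) [Fintype V] [Fintype D] (G : DG V D), G.Cub → G.C3 → G.C4 →
  ∀ (X : Finset V) (g : D → ℕ), G.Pocket X g → ∃ d1 d2 d3 d4, G.Ports X g d1 d2 d3 d4

def T_SIX : Prop := ∀ (V D : Type) [Fintype V] [Fintype D] (G : DG V D), G.Cub → G.C3 → G.C4 →
  G.NoQuad → ∀ X : Finset V, (G.cut univ X).card = 4 → 4 ≤ X.card → 2 ≤ Xᶜ.card → 6 ≤ X.card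

def T_SUBP : Prop := ∀ (V D : Type) [Fintype V] [Fintype D] (G : DG V D), G.Cub → G.C3 → G.C4 →
  ∀ (X : Finset V) (g : D → ℕ), G.Pocket X g → ∀ W ⊆ X, (G.cut univ W).card = 4 →
  4 ≤ W.card → G.Pocket W g

/-- dual loops -/
def T_D1 : Prop := ∀ (V D : Type) [Fintype V] [Fintype D] (G : DG V D), G.Cub → G.C3 → G.C4 →
  ∀ (X : Finset V) (g : D → ℕ), G.Pocket X g → ∀ d, G.Tc X d → g d ≠ g (G.inv d)

/-- dual cycles of length two -/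
def T_D2 : Prop := ∀ (V D : Type) [Fintype V] [Fintype D] (G : DG V D), G.Cub → G.C3 → G.C4 →
  ∀ (X : Finset V) (g : D → ℕ), G.Pocket X g → ∀ d d', G.Tc X d → G.Tc X d' → g d = g d' →
  g (G.inv d) = g (G.inv d') → d = d'

/-- dual cycles of length three -/
def T_D3 : Prop := ∀ (V D : Type) [Fintype V] [Fintype D] (G : DG V D), G.Cub → G.C3 → G.C4 →
  ∀ (X : Finset V) (g : D → ℕ), G.Pocket X g → ∀ k1 k2 k3, G.Tc X k1 → G.Tc X k2 → G.Tc X k3 →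
  g (G.inv k1) = g k2 → g (G.inv k2) = g k3 → g (G.inv k3) = g k1 →
  ∃ v ∈ X, (G.src k1 = v ∨ G.tgt k1 = v) ∧ (G.src k2 = v ∨ G.tgt k2 = v) ∧
    (G.src k3 = v ∨ G.tgt k3 = v)

/-- dual cycles of length four in a minimal pocket: all four edges leave `X`, or they are the edges
leaving a pair of adjacent vertices -/
def T_D4 : Prop := ∀ (V D : Type) [Fintype V] [Fintype D] (G : DG V D), G.Cub → G.C3 → G.C4 →
  ∀ (X : Finset V) (g : D → ℕ), G.Pocket X g → G.Mini X → ∀ k : ℕ → D,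
  (∀ i < 4, G.Tc X (k i)) → (∀ i < 4, ∀ j < 4, (k i = k j ∨ k i = G.inv (k j)) → i = j) →
  g (G.inv (k 0)) = g (k 1) → g (G.inv (k 1)) = g (k 2) → g (G.inv (k 2)) = g (k 3) →
  g (G.inv (k 3)) = g (k 0) →
  (∀ i < 4, k i ∈ G.cut univ X ∨ G.inv (k i) ∈ G.cut univ X) ∨
  ∃ w ∈ X, ∃ w' ∈ X, w ≠ w' ∧ (∃ c, G.src c = w ∧ G.tgt c = w') ∧
    ∀ i < 4, k i ∈ G.cut univ {w, w'} ∨ G.inv (k i) ∈ G.cut univ {w, w'}

/-- the edge of `k` touches `X`, and its ends in `X` are in `V1` -/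
def Bd {V D : Type} [Fintype V] [Fintype D] (G : DG V D) (X V1 : Finset V) (k : D) : Prop :=
  G.Tc X k ∧ (G.src k ∈ X → G.src k ∈ V1) ∧ (G.tgt k ∈ X → G.tgt k ∈ V1)

/-- the initial configuration around the face `g d2` -/
def T_CONF0 : Prop := ∀ (V D : Type) [Fintype V] [Fintype D] (G : DG V D), G.Cub → G.C3 → G.C4 →
  ∀ (X : Finset V) (g : D → ℕ), G.Pocket X g → G.Mini X → 6 ≤ X.card →
  ∀ d1 d2 d3 d4, G.Ports X g d1 d2 d3 d4 →
  ∃ t p h, G.Conf X g d1 d2 d3 d4 (G.touch X g (g d2)) t p h ∧ 3 ≤ t ∧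
    ∀ i ≤ t, ∃ k, Bd G X (G.touch X g (g d2)) k ∧ g k = g d2 ∧ g (G.inv k) = p i

/-- pushing a configuration over the face `p i` -/
def T_PUSH : Prop := ∀ (V D : Type) [Fintype V] [Fintype D] (G : DG V D), G.Cub → G.C3 → G.C4 →
  ∀ (X : Finset V) (g : D → ℕ), G.Pocket X g → G.Mini X → 6 ≤ X.card →
  ∀ d1 d2 d3 d4, G.Ports X g d1 d2 d3 d4 → ∀ V1 t p h, G.Conf X g d1 d2 d3 d4 V1 t p h →
  ∀ i, 0 < i → i < t →
  (∃ k, Bd G X V1 k ∧ g k = g d2 ∧ g (G.inv k) = p i) →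
  (∀ l ≤ t, l ≠ i → ∃ k k', Bd G X V1 k ∧ Bd G X V1 k' ∧ g (G.inv k) = p l ∧
    g (G.inv k') = p i ∧ g k = g k') →
  ∃ t' p' h', G.Conf X g d1 d2 d3 d4 (V1 ∪ G.touch X g (p i)) t' p' h' ∧
    (∀ l ≤ t, l ≠ i → ∃ l' ≤ t', p' l' = p l) ∧
    (∀ l' ≤ t', (∃ l ≤ t, l ≠ i ∧ p' l' = p l) ∨
      ∃ k, Bd G X (V1 ∪ G.touch X g (p i)) k ∧ g k = p i ∧ g (G.inv k) = p' l')

/-- there is a configuration of odd length -/
def T_ODD : Prop := ∀ (V D : Type) [Fintype V] [Fintype D] (G : DG V D), G.Cub → G.C3 → G.C4 →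
  ∀ (X : Finset V) (g : D → ℕ), G.Pocket X g → G.Mini X → 6 ≤ X.card →
  ∀ d1 d2 d3 d4, G.Ports X g d1 d2 d3 d4 →
  ∃ V1 t p h, G.Conf X g d1 d2 d3 d4 V1 t p h ∧ Odd t ∧ 2 ≤ t

/-- removing all cut edges -/
def T_CORE : Prop := ∀ (V D : Type) [Fintype V] [Fintype D] (G : DG V D) (A : Finset D), G.Cl A →
  ∃ A' ⊆ A, G.Cl A' ∧ G.BL A' ∧ ∀ d ∈ A, d ∉ A' → ∃ W, G.cut A W = {d}

/-- the labels outside the pocket -/
def T_RED : Prop := ∀ (V D : Type) [Fintype V] [Fintype D] (G : DG V D), G.Cub → G.C3 →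
  G.IH → ∀ (X : Finset V) (g : D → ℕ), G.Pocket X g → ∀ d1 d2 d3 d4,
  G.Ports X g d1 d2 d3 d4 → ∀ V1 t p h, G.Conf X g d1 d2 d3 d4 V1 t p h → 2 ≤ t →
  ∃ mu : D → ℕ, (∀ v ∉ X, G.BalAt univ mu v) ∧ (∀ d, G.Tc Xᶜ d → mu d ≠ mu (G.inv d)) ∧
    mu (G.inv d1) = mu d2 ∧ mu d1 ≠ mu (G.inv d2) ∧
    ((mu d3 = mu (G.inv d2) ∧ mu d4 = mu (G.inv d3) ∧ mu (G.inv d4) = mu d1) ∨
     (mu (G.inv d3) = mu d1 ∧ mu d4 = mu (G.inv d2) ∧ mu (G.inv d4) = mu d3))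

/-- extension of the labels into the pocket -/
def T_EXT : Prop := ∀ (V D : Type) [Fintype V] [Fintype D] (G : DG V D), G.Cub →
  ∀ (X : Finset V) (g : D → ℕ), G.Pocket X g → (∀ d, G.Tc X d → g d ≠ g (G.inv d)) →
  ∀ d1 d2 d3 d4, G.Ports X g d1 d2 d3 d4 → ∀ V1 t p h, G.Conf X g d1 d2 d3 d4 V1 t p h →
  Odd t → ∀ mu : D → ℕ, (∀ v ∉ X, G.BalAt univ mu v) →
  (∀ d, G.Tc Xᶜ d → mu d ≠ mu (G.inv d)) → mu (G.inv d1) = mu d2 → mu d1 ≠ mu (G.inv d2) →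
    ((mu d3 = mu (G.inv d2) ∧ mu d4 = mu (G.inv d3) ∧ mu (G.inv d4) = mu d1) ∨
     (mu (G.inv d3) = mu d1 ∧ mu d4 = mu (G.inv d2) ∧ mu (G.inv d4) = mu d3)) →
  ∃ lam, G.Cov univ lam

/-! ## Paths with 2-edge-connected complement -/

/-- adding an ear -/
def T_EAR : Prop := ∀ (V D : Type) [Fintype V] [Fintype D] (G : DG V D) (B Q : Finset V),
  G.BB B → Disjoint Q B → G.Conn univ Q → 2 ≤ (G.ee Q B).card →
  ∃ B', B ⊆ B' ∧ B' ⊆ B ∪ Q ∧ B' ≠ B ∧ G.BB B'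

/-- first part of the extremal argument -/
def T_EX1 : Prop := ∀ (V D : Type) [Fintype V] [Fintype D] (G : DG V D), G.Cub → G.C3 →
  ∀ e : D, G.src e ≠ G.tgt e → 3 ≤ Fintype.card V →
  (∃ X : Finset V, G.src e ∈ X ∧ G.tgt e ∈ X ∧ X ≠ univ ∧ G.BB Xᶜ ∧
    G.Reach (univ \ {e, G.inv e}) X (G.src e) (G.tgt e) ∧
    ∀ v ∈ X, v ≠ G.src e → v ≠ G.tgt e →
      ¬ G.Reach (univ \ {e, G.inv e}) (X \ {v}) (G.src e) (G.tgt e)) ∨
  ∃ B Z : Finset V, B.Nonempty ∧ Z.Nonempty ∧ Disjoint B Z ∧ G.src e ∉ B ∪ Z ∧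
    G.tgt e ∉ B ∪ Z ∧ G.Conn univ Z ∧ G.Conn (univ \ {e, G.inv e}) (B ∪ Z)ᶜ ∧
    (∀ Q, Disjoint Q B → G.Conn univ Q →
      G.Reach (univ \ {e, G.inv e}) (B ∪ Q)ᶜ (G.src e) (G.tgt e) → (G.ee Q B).card ≤ 1) ∧
    (∀ d, G.src d ∈ (B ∪ Z)ᶜ → G.tgt d ∈ Z → G.src d ≠ G.src e → G.src d ≠ G.tgt e →
      ¬ G.Reach (univ \ {e, G.inv e}) ((B ∪ Z)ᶜ \ {G.src d}) (G.src e) (G.tgt e))

/-- second part -/
def T_EX2 : Prop := ∀ (V D : Type) [Fintype V] [Fintype D] (G : DG V D), G.Cub → G.C3 → G.C4 →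
  ∀ e : D, G.src e ≠ G.tgt e →
  ∀ B Z : Finset V, B.Nonempty → Z.Nonempty → Disjoint B Z → G.src e ∉ B ∪ Z →
    G.tgt e ∉ B ∪ Z → G.Conn univ Z → G.Conn (univ \ {e, G.inv e}) (B ∪ Z)ᶜ →
    (∀ Q, Disjoint Q B → G.Conn univ Q →
      G.Reach (univ \ {e, G.inv e}) (B ∪ Q)ᶜ (G.src e) (G.tgt e) → (G.ee Q B).card ≤ 1) →
    (∀ d, G.src d ∈ (B ∪ Z)ᶜ → G.tgt d ∈ Z → G.src d ≠ G.src e → G.src d ≠ G.tgt e →
      ¬ G.Reach (univ \ {e, G.inv e}) ((B ∪ Z)ᶜ \ {G.src d}) (G.src e) (G.tgt e)) →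
  (∃ S : Finset V, G.src e ∉ S ∧ G.tgt e ∉ S ∧ (G.cut univ S).card = 4 ∧ 4 ≤ S.card ∧
    3 ≤ Sᶜ.card) ∨
  ∃ (e' p l r : D) (S : Finset V), (e' = e ∨ e' = G.inv e) ∧ G.src e' ∈ S ∧
    (∀ d, d ∈ G.cut univ S ↔ (d = e' ∨ d = p ∨ d = l ∨ d = r)) ∧ (G.cut univ S).card = 4 ∧
    4 ≤ S.card ∧ 2 ≤ Sᶜ.card ∧
    ∀ Q ⊆ S, G.Conn univ Q → G.src l ∈ Q → G.src r ∈ Q →
      ¬ G.Reach (univ \ {e, G.inv e}) (S \ Q) (G.src e') (G.src p)

/-- `X` is the vertex set of an induced path `v 0, …, v n` of `G - e` -/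
structure IsPath {V D : Type} [Fintype V] [Fintype D] (G : DG V D) (e : D) (X : Finset V) (n : ℕ)
    (v : ℕ → V) (c : ℕ → D) : Prop where
  pos : 0 < n
  v0 : v 0 = G.src e
  vn : v n = G.tgt e
  hc : ∀ i < n, c i ≠ e ∧ c i ≠ G.inv e ∧ G.src (c i) = v i ∧ G.tgt (c i) = v (i + 1)
  inj : ∀ i ≤ n, ∀ j ≤ n, v i = v j → i = j
  mem : ∀ x, x ∈ X ↔ ∃ i ≤ n, x = v i
  ind : ∀ d, d ≠ e → d ≠ G.inv e → G.src d ∈ X → G.tgt d ∈ X → ∃ i < n, d = c i ∨ d = G.inv (c i)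

/-- enumeration of the path -/
def T_PATH : Prop := ∀ (V D : Type) [Fintype V] [Fintype D] (G : DG V D), G.Cub → G.C3 →
  ∀ (e : D) (X : Finset V), G.src e ≠ G.tgt e → X ≠ univ →
  G.Reach (univ \ {e, G.inv e}) X (G.src e) (G.tgt e) →
  (∀ v ∈ X, v ≠ G.src e → v ≠ G.tgt e →
      ¬ G.Reach (univ \ {e, G.inv e}) (X \ {v}) (G.src e) (G.tgt e)) →
  ∃ n v c, IsPath G e X n v c

/-- the ring of faces around the path: `l`: the leg at `v i` is on the left side -/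
structure Ring {V D : Type} [Fintype V] [Fintype D] (G : DG V D) (e : D) (f : D → ℕ)
    (X : Finset V) (n : ℕ) (v : ℕ → V) (c h : ℕ → D) (l : ℕ → Prop) : Prop where
  leg : ∀ i ≤ n, G.src (h i) = v i ∧ G.tgt (h i) ∉ X ∧ h i ≠ e ∧ h i ≠ G.inv e
  star0 : ∀ d, G.src d = v 0 → d = e ∨ d = c 0 ∨ d = h 0
  star : ∀ i, 0 < i → i < n → ∀ d, G.src d = v i →
    d = G.inv (c (i - 1)) ∨ d = c i ∨ d = h i
  starn : ∀ d, G.src d = v n → d = G.inv e ∨ d = G.inv (c (n - 1)) ∨ d = h n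
  f0 : f (h 0) = f (G.inv (c 0)) ∧ f (G.inv (h 0)) = f (c 0)
  fn : f (h n) = f (c (n - 1)) ∧ f (G.inv (h n)) = f (G.inv (c (n - 1)))
  left : ∀ i, 0 < i → i < n → l i → f (G.inv (c i)) = f (G.inv (c (i - 1))) ∧
    f (h i) = f (c (i - 1)) ∧ f (G.inv (h i)) = f (c i)
  right : ∀ i, 0 < i → i < n → ¬ l i → f (c i) = f (c (i - 1)) ∧
    f (h i) = f (G.inv (c i)) ∧ f (G.inv (h i)) = f (G.inv (c (i - 1)))
  dL : ∀ i < n, ∀ j < n, i < j → f (c i) = f (c j) → ∀ k, i < k → k ≤ j → ¬ l k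
  dR : ∀ i < n, ∀ j < n, i < j → f (G.inv (c i)) = f (G.inv (c j)) → ∀ k, i < k → k ≤ j → l k
  dLR : ∀ i < n, ∀ j < n, f (c i) ≠ f (G.inv (c j))
  out : ∀ d, G.src d ∉ X → G.tgt d ∉ X → f d ≠ f (G.inv d) ∧
    ¬ ((∃ i < n, f d = f (c i) ∨ f d = f (G.inv (c i))) ∧
       (∃ i < n, f (G.inv d) = f (c i) ∨ f (G.inv d) = f (G.inv (c i))))

/-- structure of the ring -/
def T_RING1 : Prop := ∀ (V D : Type) [Fintype V] [Fintype D] (G : DG V D), G.Cub → G.C3 →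
  ∀ (e : D) (f : D → ℕ), G.Bal (univ \ {e, G.inv e}) f → G.Eul (univ \ {e, G.inv e}) f →
  ∀ (X : Finset V) (n : ℕ) (v : ℕ → V) (c : ℕ → D), X ≠ univ → G.BB Xᶜ →
  IsPath G e X n v c → ∃ h l, Ring G e f X n v c h l

/-- the labels -/
def T_RING2 : Prop := ∀ (V D : Type) [Fintype V] [Fintype D] (G : DG V D), G.Cub →
  ∀ (e : D) (f : D → ℕ), G.Bal (univ \ {e, G.inv e}) f →
  ∀ (X : Finset V) (n : ℕ) (v : ℕ → V) (c : ℕ → D), IsPath G e X n v c →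
  ∀ h l, Ring G e f X n v c h l → ∃ lam, G.Cov univ lam

/-! ## Cubic graphs, the torus -/

/-- the main theorem for cubic multigraphs -/
def T_CUB : Prop := ∀ (V D : Type) [Fintype V] [Fintype D] (G : DG V D), G.Cub → G.BL univ →
  G.PE univ → ∃ lam, G.Cov univ lam

/-- planar maps: dual cycles are cuts (`A` = the edges, all other darts are isolated) -/
def T_EUL : Prop := ∀ (V D : Type) [Fintype V] [Fintype D] (G : DG V D) (A : Finset D),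
  G.Cl A → ∀ s i : Equiv.Perm D, G.Rot A s → (∀ d ∉ A, s d = d) → (∀ d ∈ A, i d = G.inv d) →
  (∀ d ∉ A, i d = d) → Pool.Agent.H7.TF.Planar s i →
  ∃ f : D → ℕ, (∀ d ∈ A, f (s (G.inv d)) = f d) ∧ G.Eul A f

/-- the genus of the map given by the rotation `s` is at most one -/
def Tor {V D : Type} [Fintype V] [Fintype D] (G : DG V D) (s : Equiv.Perm D) : Prop :=
  ∀ i : Equiv.Perm D, (∀ d, i d = G.inv d) →
    Nat.card D + 2 * Pool.Agent.H7.TF.comps s i ≤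
      Pool.Agent.H7.TF.nc s + Pool.Agent.H7.TF.nc i + Pool.Agent.H7.TF.nc (s * i) + 2

/-- a map on the torus: all faces are cycles, or it is planar up to one edge -/
def T_TORC : Prop := ∀ (V D : Type) [Fintype V] [Fintype D] (G : DG V D) (s : Equiv.Perm D),
  G.BL univ → G.Rot univ s → Tor G s → (∃ lam, G.Cov univ lam) ∨ G.PE univ

/-- truncation: reduction to cubic graphs -/
def T_TRU : Prop := ∀ (V D : Type) [Fintype V] [Fintype D] (G : DG V D) (s : Equiv.Perm D),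
  G.BL univ → G.Rot univ s → Tor G s →
  (∀ (V' D' : Type) [Fintype V'] [Fintype D'] (G' : DG V' D') (s' : Equiv.Perm D'),
    G'.Cub → G'.BL univ → G'.Rot univ s' → Tor G' s' → ∃ lam, G'.Cov univ lam) →
  ∃ lam, G.Cov univ lam

/-- the darts of a simple graph -/
def dgS {V : Type} [Fintype V] (G : SimpleGraph V) : DG V G.Dart where
  src := fun d => d.fst
  inv := fun d => d.symm
  inv_inv := fun d => d.symm_symm
  inv_ne := fun d => d.symm_ne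

/-- from the frozen form of the hypothesis -/
def T_BLS : Prop := ∀ (V : Type) [Fintype V] (G : SimpleGraph V),
  (∀ u v : V, G.Adj u v → (G.deleteEdges {s(u, v)}).Reachable u v) → (dgS G).BL univ

/-- to the frozen form of the conclusion -/
def T_FIN : Prop := ∀ (V : Type) [Fintype V] (G : SimpleGraph V), (∃ lam, (dgS G).Cov univ lam) →
  ∃ C : List (Σ v : V, G.Walk v v), (∀ c ∈ C, c.2.IsCycle) ∧
    ∀ u v : V, G.Adj u v →
      (C.map (fun c => (c.2.darts.filter (fun d => decide (d.toProd = (u, v)))).length)).sum = 1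

end Pool.Agent.H69.OC
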